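import Mathlib

/-!
A finite net of the unit sphere of `ℝ × ℂ`.
-/

set_option autoImplicit false
open MeasureTheory Filter Topology Complex Set

namespace Pool.Agent.Helper39.BW

noncomputable section

/-- **A finite net** -/
theorem net {η : ℝ} (hη : 0 < η) : ∃ N : Finset (ℝ × ℂ), (∀ s ∈ N, s.1 ^ 2 + ‖s.2‖ ^ 2 = 1) ∧
    ∀ (p : ℝ) (q : ℂ), ∃ s ∈ N, √(p ^ 2 + ‖q‖ ^ 2) ≤ (1 + η) * (s.1 * p + (inner ℝ s.2 q : ℝ)) := by
  set T : Set (ℝ × ℂ) := {s | s.1 ^ 2 + ‖s.2‖ ^ 2 = 1} with hT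
  have hclosed : IsClosed T := isClosed_eq (by fun_prop) continuous_const
  have hbdd : Bornology.IsBounded T := by
    refine (Metric.isBounded_closedBall (x := (0 : ℝ × ℂ)) (r := 1)).subset fun s hs => ?_
    have hs' : s.1 ^ 2 + ‖s.2‖ ^ 2 = 1 := hs
    rw [mem_closedBall_zero_iff, Prod.norm_def, max_le_iff]
    constructor
    · rw [Real.norm_eq_abs]; nlinarith [sq_abs s.1, abs_nonneg s.1, sq_nonneg ‖s.2‖]
    · nlinarith [norm_nonneg s.2, sq_nonneg s.1]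
  have hcomp : IsCompact T := Metric.isCompact_of_isClosed_isBounded hclosed hbdd
  obtain ⟨N, hN, hcov⟩ := hcomp.elim_nhds_subcover
    (fun s => {x : ℝ × ℂ | 1 < (1 + η) * (s.1 * x.1 + (inner ℝ s.2 x.2 : ℝ))}) (fun s hs => by
      refine (isOpen_lt continuous_const (by fun_prop)).mem_nhds ?_
      have hs' : s.1 ^ 2 + ‖s.2‖ ^ 2 = 1 := hs
      show 1 < (1 + η) * (s.1 * s.1 + (inner ℝ s.2 s.2 : ℝ))
      rw [real_inner_self_eq_norm_sq]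
      nlinarith)
  refine ⟨N, fun s hs => hN s hs, fun p q => ?_⟩
  by_cases h0 : p ^ 2 + ‖q‖ ^ 2 = 0
  · have hp : p = 0 := by nlinarith [sq_nonneg p, sq_nonneg ‖q‖]
    have hq : q = 0 := by
      have : ‖q‖ ^ 2 = 0 := by nlinarith [sq_nonneg p, sq_nonneg ‖q‖]
      simpa using this
    have h1 : ((1 : ℝ), (0 : ℂ)) ∈ T := by simp [hT]
    obtain ⟨s, hs⟩ := mem_iUnion.1 (hcov h1)
    obtain ⟨hsN, -⟩ := mem_iUnion.1 hs
    refine ⟨s, hsN, ?_⟩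
    rw [hp, hq]; simp
  · have hpos : 0 < p ^ 2 + ‖q‖ ^ 2 := lt_of_le_of_ne (by positivity) (Ne.symm h0)
    set r : ℝ := √(p ^ 2 + ‖q‖ ^ 2) with hr
    have r0 : 0 < r := Real.sqrt_pos.2 hpos
    have r2 : r ^ 2 = p ^ 2 + ‖q‖ ^ 2 := Real.sq_sqrt hpos.le
    have h1 : ((r⁻¹ * p : ℝ), (r⁻¹ : ℝ) • q) ∈ T := by
      show (r⁻¹ * p) ^ 2 + ‖(r⁻¹ : ℝ) • q‖ ^ 2 = 1
      rw [norm_smul, Real.norm_eq_abs, abs_of_pos (inv_pos.2 r0), mul_pow, mul_pow, ← mul_add,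
        ← r2, ← mul_pow, inv_mul_cancel₀ r0.ne', one_pow]
    obtain ⟨s, hs⟩ := mem_iUnion.1 (hcov h1)
    obtain ⟨hsN, h2⟩ := mem_iUnion.1 hs
    refine ⟨s, hsN, ?_⟩
    have h3 : 1 < (1 + η) * (s.1 * (r⁻¹ * p) + (inner ℝ s.2 ((r⁻¹ : ℝ) • q) : ℝ)) := h2
    rw [real_inner_smul_right] at h3
    have h4 := mul_lt_mul_of_pos_left h3 r0
    have e : r * ((1 + η) * (s.1 * (r⁻¹ * p) + r⁻¹ * (inner ℝ s.2 q : ℝ))) =
        (1 + η) * (s.1 * p + (inner ℝ s.2 q : ℝ)) := by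
      field_simp
    rw [e, mul_one] at h4
    exact h4.le

end

end Pool.Agent.Helper39.BW
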