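import Pool.Agent.Helper39.BW.PlR
import Pool.Agent.Helper39.BW.Net
import Pool.Agent.TH294.RG.Fin

/-!
The inequality of Bernstein and Szegő in the mean, for one function.
-/

set_option autoImplicit false
open MeasureTheory Filter Topology Complex Set
open scoped Real ContDiff

namespace Pool.Agent.Helper39.BW

open Pool.Agent.W745.RW

noncomputable section

/-- the sampling error -/
def Tv (v : ℂ → ℝ) (t w0 : ℝ) (w : ℂ) (S : Finset ℤ) (c : ℤ → ℝ) (y : ℤ → ℂ) (z : ℂ) : ℝ :=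
  w0 * v z + t * fderiv ℝ v z w - ∑ k ∈ S, c k * v (z + (t : ℂ) * y k)

/-- the indicator function at the nodes -/
def Iv (A : Set ℂ) (t : ℝ) (S : Finset ℤ) (c : ℤ → ℝ) (y : ℤ → ℂ) (z : ℂ) : ℝ :=
  ∑ k ∈ S, |c k| * A.indicator (fun _ => (1 : ℝ)) (z + (t : ℂ) * y k)

lemma ind_nn (A : Set ℂ) (x : ℂ) : 0 ≤ A.indicator (fun _ => (1 : ℝ)) x :=
  indicator_nonneg (fun _ _ => zero_le_one) x

lemma ind_le (A : Set ℂ) (x : ℂ) : A.indicator (fun _ => (1 : ℝ)) x ≤ 1 :=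
  indicator_le_self' (fun _ _ => zero_le_one) x

lemma Iv_nn (A : Set ℂ) (t : ℝ) (S : Finset ℤ) (c : ℤ → ℝ) (y : ℤ → ℂ) (z : ℂ) :
    0 ≤ Iv A t S c y z :=
  Finset.sum_nonneg fun _ _ => mul_nonneg (abs_nonneg _) (ind_nn _ _)

lemma Iv_le {A : Set ℂ} {t : ℝ} {S : Finset ℤ} {c : ℤ → ℝ} {y : ℤ → ℂ}
    (hc : ∑ k ∈ S, |c k| ≤ 1) (z : ℂ) : Iv A t S c y z ≤ 1 := by
  refine le_trans (Finset.sum_le_sum fun k _ => ?_) hc
  exact mul_le_of_le_one_right (abs_nonneg _) (ind_le _ _)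

/-- the pointwise estimate -/
lemma ptw {t w0 : ℝ} {w : ℂ} {S : Finset ℤ} {c : ℤ → ℝ} {y : ℤ → ℂ} {δ : ℝ}
    (hc : ∑ k ∈ S, |c k| ≤ 1) (hd : |w0 - ∑ k ∈ S, c k| ≤ δ) {u χ : ℂ → ℝ} {A : Set ℂ}
    {H c0 C1 : ℝ} (hH : 0 ≤ H) {z : ℂ} (hz : χ =ᶠ[𝓝 z] fun _ => 1)
    (hn : ∀ k ∈ S, χ (z + (t : ℂ) * y k) = 1)
    (hb : ∀ k ∈ S, |u (z + (t : ℂ) * y k) - c0| ≤
      H + C1 * A.indicator (fun _ => (1 : ℝ)) (z + (t : ℂ) * y k)) :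
    w0 * (u z - c0) + t * fderiv ℝ u z w ≤ H + |c0| * δ +
      (|Tv (fun z => χ z * u z) t w0 w S c y z| + C1 * Iv A t S c y z) := by
  have e1 : (fun z => χ z * u z) =ᶠ[𝓝 z] u := by
    filter_upwards [hz] with x hx
    rw [hx, one_mul]
  have e2 : Tv (fun z => χ z * u z) t w0 w S c y z =
      w0 * u z + t * fderiv ℝ u z w - ∑ k ∈ S, c k * u (z + (t : ℂ) * y k) := by
    unfold Tv
    rw [e1.fderiv_eq]
    simp only [hz.eq_of_nhds, one_mul]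
    congr 1
    refine Finset.sum_congr rfl fun k hk => ?_
    rw [hn k hk, one_mul]
  have e3 : ∑ k ∈ S, c k * u (z + (t : ℂ) * y k) =
      ∑ k ∈ S, c k * (u (z + (t : ℂ) * y k) - c0) + c0 * ∑ k ∈ S, c k := by
    rw [Finset.mul_sum, ← Finset.sum_add_distrib]
    refine Finset.sum_congr rfl fun k _ => ?_
    ring
  have h1 : ∑ k ∈ S, c k * (u (z + (t : ℂ) * y k) - c0) ≤ H + C1 * Iv A t S c y z := by
    have h2 : ∑ k ∈ S, c k * (u (z + (t : ℂ) * y k) - c0) ≤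
        ∑ k ∈ S, (|c k| * H +
          C1 * (|c k| * A.indicator (fun _ => (1 : ℝ)) (z + (t : ℂ) * y k))) := by
      refine Finset.sum_le_sum fun k hk => ?_
      have h3 := mul_le_mul_of_nonneg_left (hb k hk) (abs_nonneg (c k))
      have h4 : c k * (u (z + (t : ℂ) * y k) - c0) ≤ |c k| * |u (z + (t : ℂ) * y k) - c0| := by
        rw [← abs_mul]; exact le_abs_self _
      linarith
    rw [Finset.sum_add_distrib, ← Finset.sum_mul, ← Finset.mul_sum] at h2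
    have h5 : (∑ k ∈ S, |c k|) * H ≤ H := mul_le_of_le_one_left hH hc
    unfold Iv
    linarith
  have h6 : c0 * ((∑ k ∈ S, c k) - w0) ≤ |c0| * δ := by
    refine (le_abs_self _).trans ?_
    rw [abs_mul, abs_sub_comm]
    exact mul_le_mul_of_nonneg_left hd (abs_nonneg _)
  have h7 := le_abs_self (Tv (fun z => χ z * u z) t w0 w S c y z)
  rw [e2] at h7 ⊢
  linarith

/-- the square of the error -/
def Er (A : Set ℂ) (v : ℂ → ℝ) (C1 t w0 : ℝ) (w : ℂ) (S : Finset ℤ) (c : ℤ → ℝ) (y : ℤ → ℂ)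
    (z : ℂ) : ℝ := 2 * Tv v t w0 w S c y z ^ 2 + 2 * C1 ^ 2 * Iv A t S c y z

lemma Er_nn (A : Set ℂ) (v : ℂ → ℝ) (C1 t w0 : ℝ) (w : ℂ) (S : Finset ℤ) (c : ℤ → ℝ) (y : ℤ → ℂ)
    (z : ℂ) : 0 ≤ Er A v C1 t w0 w S c y z := by
  unfold Er
  have := Iv_nn A t S c y z
  positivity

lemma le_Er {A : Set ℂ} {v : ℂ → ℝ} {C1 t w0 : ℝ} {w : ℂ} {S : Finset ℤ} {c : ℤ → ℝ} {y : ℤ → ℂ}
    (hc : ∑ k ∈ S, |c k| ≤ 1) (z : ℂ) :
    (|Tv v t w0 w S c y z| + C1 * Iv A t S c y z) ^ 2 ≤ Er A v C1 t w0 w S c y z := by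
  unfold Er
  have h1 := Iv_nn A t S c y z
  have h2 := Iv_le (A := A) (t := t) (y := y) hc z
  have h3 : Iv A t S c y z ^ 2 ≤ Iv A t S c y z := by nlinarith
  have h4 : C1 ^ 2 * Iv A t S c y z ^ 2 ≤ C1 ^ 2 * Iv A t S c y z :=
    mul_le_mul_of_nonneg_left h3 (sq_nonneg _)
  have h5 := sq_abs (Tv v t w0 w S c y z)
  nlinarith [sq_nonneg (|Tv v t w0 w S c y z| - C1 * Iv A t S c y z)]

/-- the integral of the square of the error -/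
lemma int_Er {A : Set ℂ} (hA : MeasurableSet A) (hAf : volume A ≠ ⊤) {v : ℂ → ℝ} (C1 : ℝ)
    {t w0 : ℝ} {w : ℂ} {S : Finset ℤ} {c : ℤ → ℝ} {y : ℤ → ℂ} {δ : ℝ} (hc : ∑ k ∈ S, |c k| ≤ 1)
    (hmu : ∀ ξ : ℂ, ‖ξ‖ ≤ 1 → ‖mu w0 w S c y ξ‖ ≤ δ)
    (h1 : HasCompactSupport v) (h2 : ContDiff ℝ ∞ v) :
    Integrable (Er A v C1 t w0 w S c y) ∧ ∫ z, Er A v C1 t w0 w S c y z ≤
      4 * δ ^ 2 * (∫ z, v z ^ 2) +
        4 * (‖w‖ + ∑ k ∈ S, |c k| * ‖y k‖) ^ 2 * (∫ z, (t ^ 2 * lap v z + v z) ^ 2) +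
        2 * C1 ^ 2 * volume.real A := by
  have i1 : Integrable (fun z => Tv v t w0 w S c y z ^ 2) := TS_int w0 t w S c y h1 h2
  have i0 : Integrable (A.indicator (fun _ => (1 : ℝ))) := by
    rw [integrable_indicator_iff hA]
    exact integrableOn_const hAf
  have i2 : Integrable (Iv A t S c y) := by
    unfold Iv
    refine integrable_finsetSum _ fun k _ => ?_
    exact (i0.comp_add_right _).const_mul _
  have e2 : ∫ z, Iv A t S c y z ≤ volume.real A := by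
    unfold Iv
    rw [integral_finsetSum _ fun k _ => (i0.comp_add_right _).const_mul _]
    have e3 : ∀ k ∈ S, ∫ z, |c k| * A.indicator (fun _ => (1 : ℝ)) (z + (t : ℂ) * y k) =
        |c k| * volume.real A := by
      intro k _
      rw [integral_const_mul, integral_add_right_eq_self (μ := (volume : Measure ℂ))
        (fun z => A.indicator (fun _ => (1 : ℝ)) z), integral_indicator hA]
      simp
    rw [Finset.sum_congr rfl e3, ← Finset.sum_mul]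
    exact mul_le_of_le_one_left measureReal_nonneg hc
  refine ⟨(i1.const_mul 2).add (i2.const_mul _), ?_⟩
  have e4 : ∫ z, Er A v C1 t w0 w S c y z =
      2 * (∫ z, Tv v t w0 w S c y z ^ 2) + 2 * C1 ^ 2 * ∫ z, Iv A t S c y z := by
    unfold Er
    rw [integral_add (i1.const_mul 2) (i2.const_mul _), integral_const_mul, integral_const_mul]
  rw [e4]
  have h3 := planchR hmu t h1 h2
  have h4 := mul_le_mul_of_nonneg_left e2 (by positivity : 0 ≤ 2 * C1 ^ 2)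
  unfold Tv
  linarith

lemma fd_inner (u : ℂ → ℝ) (z w : ℂ) (t : ℝ) :
    t * fderiv ℝ u z w = (inner ℝ w ((t * dx u z : ℝ) + (t * dy u z : ℝ) * I : ℂ) : ℝ) := by
  have e1 : w = w.re • (1 : ℂ) + w.im • I := by
    rw [Complex.real_smul, Complex.real_smul, mul_one, re_add_im]
  have e2 : fderiv ℝ u z w = w.re * dx u z + w.im * dy u z := by
    conv_lhs => rw [e1]
    rw [map_add, map_smul, map_smul]
    rfl
  rw [e2, Complex.inner]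
  simp
  ring

lemma nsq (u : ℂ → ℝ) (z : ℂ) (t : ℝ) :
    ‖((t * dx u z : ℝ) + (t * dy u z : ℝ) * I : ℂ)‖ ^ 2 = t ^ 2 * (dx u z ^ 2 + dy u z ^ 2) := by
  rw [Complex.sq_norm, Complex.normSq_apply]
  simp
  ring

/-- the pointwise inequality of Bernstein and Szegő -/
lemma bs_pt {η : ℝ} (hη : 0 < η) {N : Finset (ℝ × ℂ)}
    (hN : ∀ (p : ℝ) (q : ℂ), ∃ s ∈ N, √(p ^ 2 + ‖q‖ ^ 2) ≤
      (1 + η) * (s.1 * p + (inner ℝ s.2 q : ℝ)))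
    {t : ℝ} {S : ℝ × ℂ → Finset ℤ} {c : ℝ × ℂ → ℤ → ℝ} {y : ℝ × ℂ → ℤ → ℂ} {δ : ℝ}
    (hc : ∀ s ∈ N, ∑ k ∈ S s, |c s k| ≤ 1) (hd : ∀ s ∈ N, |s.1 - ∑ k ∈ S s, c s k| ≤ δ)
    {u χ : ℂ → ℝ} {A : Set ℂ} {H c0 C1 : ℝ} (hH : 0 ≤ H) {z : ℂ} (hz : χ =ᶠ[𝓝 z] fun _ => 1)
    (hn : ∀ s ∈ N, ∀ k ∈ S s, χ (z + (t : ℂ) * y s k) = 1)
    (hb : ∀ s ∈ N, ∀ k ∈ S s, |u (z + (t : ℂ) * y s k) - c0| ≤
      H + C1 * A.indicator (fun _ => (1 : ℝ)) (z + (t : ℂ) * y s k)) :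
    t ^ 2 * (dx u z ^ 2 + dy u z ^ 2) ≤ (1 + η) ^ 3 * (H + |c0| * δ) ^ 2 - (u z - c0) ^ 2 +
      (1 + η) ^ 2 * (1 + η⁻¹) *
        ∑ s ∈ N, Er A (fun z => χ z * u z) C1 t s.1 s.2 (S s) (c s) (y s) z := by
  obtain ⟨s, hs, h1⟩ := hN (u z - c0) ((t * dx u z : ℝ) + (t * dy u z : ℝ) * I : ℂ)
  rw [← fd_inner, nsq] at h1
  have h2 := ptw (w := s.2) (hc s hs) (hd s hs) hH hz (hn s hs) (hb s hs)
  obtain ⟨E, hE⟩ : ∃ E : ℝ, E = |Tv (fun z => χ z * u z) t s.1 s.2 (S s) (c s) (y s) z| +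
    C1 * Iv A t (S s) (c s) (y s) z := ⟨_, rfl⟩
  rw [← hE] at h2
  have h3 : E ^ 2 ≤ Er A (fun z => χ z * u z) C1 t s.1 s.2 (S s) (c s) (y s) z := by
    rw [hE]; exact le_Er (hc s hs) z
  have h4 : Er A (fun z => χ z * u z) C1 t s.1 s.2 (S s) (c s) (y s) z ≤
      ∑ s ∈ N, Er A (fun z => χ z * u z) C1 t s.1 s.2 (S s) (c s) (y s) z :=
    Finset.single_le_sum (f := fun s : ℝ × ℂ =>
      Er A (fun z => χ z * u z) C1 t s.1 s.2 (S s) (c s) (y s) z)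
      (fun s _ => Er_nn _ _ _ _ _ _ _ _ _ _) hs
  have h5 : 0 ≤ (u z - c0) ^ 2 + t ^ 2 * (dx u z ^ 2 + dy u z ^ 2) := by positivity
  have h6 : √((u z - c0) ^ 2 + t ^ 2 * (dx u z ^ 2 + dy u z ^ 2)) ≤
      (1 + η) * (H + |c0| * δ + E) :=
    h1.trans (mul_le_mul_of_nonneg_left h2 (by linarith))
  have h7 := pow_le_pow_left₀ (Real.sqrt_nonneg _) h6 2
  rw [Real.sq_sqrt h5] at h7
  obtain ⟨P, hP⟩ : ∃ P : ℝ, P = H + |c0| * δ := ⟨_, rfl⟩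
  rw [← hP] at h7 ⊢
  have h8 : (P + E) ^ 2 ≤ (1 + η) * P ^ 2 + (1 + η⁻¹) * E ^ 2 := by
    have h9 : 0 ≤ η⁻¹ * (η * P - E) ^ 2 := by positivity
    have h10 : η⁻¹ * (η * P - E) ^ 2 = η * P ^ 2 - 2 * P * E + η⁻¹ * E ^ 2 := by
      field_simp
      ring
    nlinarith
  have h11 : ((1 + η) * (P + E)) ^ 2 ≤ (1 + η) ^ 3 * P ^ 2 + (1 + η) ^ 2 * (1 + η⁻¹) * E ^ 2 := by
    have := mul_le_mul_of_nonneg_left h8 (sq_nonneg (1 + η))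
    nlinarith
  have h12 : (1 + η) ^ 2 * (1 + η⁻¹) * E ^ 2 ≤ (1 + η) ^ 2 * (1 + η⁻¹) *
      ∑ s ∈ N, Er A (fun z => χ z * u z) C1 t s.1 s.2 (S s) (c s) (y s) z :=
    mul_le_mul_of_nonneg_left (h3.trans h4) (by positivity)
  linarith

/-- **The inequality of Bernstein and Szegő in the mean** -/
theorem bs_int {η : ℝ} (hη : 0 < η) {N : Finset (ℝ × ℂ)}
    (hN : ∀ (p : ℝ) (q : ℂ), ∃ s ∈ N, √(p ^ 2 + ‖q‖ ^ 2) ≤
      (1 + η) * (s.1 * p + (inner ℝ s.2 q : ℝ)))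
    {t : ℝ} {S : ℝ × ℂ → Finset ℤ} {c : ℝ × ℂ → ℤ → ℝ} {y : ℝ × ℂ → ℤ → ℂ} {δ : ℝ}
    (hc : ∀ s ∈ N, ∑ k ∈ S s, |c s k| ≤ 1) (hd : ∀ s ∈ N, |s.1 - ∑ k ∈ S s, c s k| ≤ δ)
    (hmu : ∀ s ∈ N, ∀ ξ : ℂ, ‖ξ‖ ≤ 1 → ‖mu s.1 s.2 (S s) (c s) (y s) ξ‖ ≤ δ)
    {U : Set ℂ} (hU : IsOpen U) {u φ χ : ℂ → ℝ} (hu : ContDiffOn ℝ ∞ u U) {A : Set ℂ}
    (hA : MeasurableSet A) (hAf : volume A ≠ ⊤)
    {H c0 C1 M : ℝ} (hH : 0 ≤ H) (hM : ∀ z ∈ U, |u z| ≤ M) (hφ : TF U φ) (hφ0 : ∀ z, 0 ≤ φ z)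
    (hφ1 : ∀ z, φ z ≤ 1) (hχ : TF U χ)
    (hz : ∀ z ∈ tsupport φ, χ =ᶠ[𝓝 z] fun _ => 1)
    (hn : ∀ z ∈ tsupport φ, ∀ s ∈ N, ∀ k ∈ S s, χ (z + (t : ℂ) * y s k) = 1)
    (hb : ∀ z ∈ tsupport φ, ∀ s ∈ N, ∀ k ∈ S s, |u (z + (t : ℂ) * y s k) - c0| ≤
      H + C1 * A.indicator (fun _ => (1 : ℝ)) (z + (t : ℂ) * y s k)) :
    ∫ z, φ z * (u z ^ 2 * (t ^ 2 * (dx u z ^ 2 + dy u z ^ 2))) ≤
      (∫ z, φ z * (u z ^ 2 * ((1 + η) ^ 3 * (H + |c0| * δ) ^ 2 - (u z - c0) ^ 2))) +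
      (1 + η) ^ 2 * (1 + η⁻¹) * M ^ 2 * ∑ s ∈ N,
        (4 * δ ^ 2 * (∫ z, (χ z * u z) ^ 2) +
        4 * (‖s.2‖ + ∑ k ∈ S s, |c s k| * ‖y s k‖) ^ 2 *
          (∫ z, (t ^ 2 * lap (fun z => χ z * u z) z + χ z * u z) ^ 2) +
        2 * C1 ^ 2 * volume.real A) := by
  have hv : TF U (fun z => χ z * u z) := Pool.Agent.TH294.RS.TF.mulc hU hχ hu
  have iE : ∀ s ∈ N, Integrable (Er A (fun z => χ z * u z) C1 t s.1 s.2 (S s) (c s) (y s)) ∧ _ :=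
    fun s hs => int_Er (t := t) hA hAf C1 (hc s hs) (hmu s hs) hv.2.1 hv.1
  have cf : ∀ v : ℂ, ContinuousOn (fun z => fderiv ℝ u z v) U := fun v =>
    ((hu.continuousOn_fderiv_of_isOpen hU (by simp)).clm_apply continuousOn_const)
  have c1 : ContinuousOn (fun z => u z ^ 2 * (t ^ 2 * (dx u z ^ 2 + dy u z ^ 2))) U :=
    (hu.continuousOn.pow 2).mul (continuousOn_const.mul (((cf 1).pow 2).add ((cf I).pow 2)))
  have c2 : ContinuousOn (fun z => u z ^ 2 * ((1 + η) ^ 3 * (H + |c0| * δ) ^ 2 -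
      (u z - c0) ^ 2)) U :=
    (hu.continuousOn.pow 2).mul (continuousOn_const.sub ((hu.continuousOn.sub
      continuousOn_const).pow 2))
  have i1 := Pool.Agent.W311.RW.int_mul hU hφ c1
  have i2 := Pool.Agent.W311.RW.int_mul hU hφ c2
  have i3 : Integrable (fun z => (1 + η) ^ 2 * (1 + η⁻¹) * M ^ 2 *
      ∑ s ∈ N, Er A (fun z => χ z * u z) C1 t s.1 s.2 (S s) (c s) (y s) z) :=
    (integrable_finsetSum _ fun s hs => (iE s hs).1).const_mul _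
  have key : ∫ z, φ z * (u z ^ 2 * (t ^ 2 * (dx u z ^ 2 + dy u z ^ 2))) ≤
      ∫ z, (φ z * (u z ^ 2 * ((1 + η) ^ 3 * (H + |c0| * δ) ^ 2 - (u z - c0) ^ 2)) +
        (1 + η) ^ 2 * (1 + η⁻¹) * M ^ 2 *
        ∑ s ∈ N, Er A (fun z => χ z * u z) C1 t s.1 s.2 (S s) (c s) (y s) z) := by
    refine integral_mono i1 (i2.add i3) fun z => ?_
    show φ z * (u z ^ 2 * (t ^ 2 * (dx u z ^ 2 + dy u z ^ 2))) ≤ _
    have s0 : 0 ≤ ∑ s ∈ N, Er A (fun z => χ z * u z) C1 t s.1 s.2 (S s) (c s) (y s) z :=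
      Finset.sum_nonneg fun s _ => Er_nn _ _ _ _ _ _ _ _ _ _
    by_cases hzs : z ∈ tsupport φ
    · have h1 := bs_pt hη hN hc hd hH (hz z hzs) (hn z hzs) (hb z hzs) (u := u) (χ := χ)
      have hzU : z ∈ U := hφ.2.2 hzs
      obtain ⟨X, hX⟩ : ∃ X : ℝ, X = ∑ s ∈ N,
        Er A (fun z => χ z * u z) C1 t s.1 s.2 (S s) (c s) (y s) z := ⟨_, rfl⟩
      rw [← hX] at s0 h1 ⊢
      have hp : 0 ≤ φ z * u z ^ 2 := mul_nonneg (hφ0 z) (sq_nonneg _)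
      have h2 := mul_le_mul_of_nonneg_left h1 hp
      have h3 : φ z * u z ^ 2 ≤ M ^ 2 := by
        have h4 : u z ^ 2 ≤ M ^ 2 := by
          rw [← sq_abs (u z)]
          exact pow_le_pow_left₀ (abs_nonneg _) (hM z hzU) 2
        exact (mul_le_of_le_one_left (sq_nonneg _) (hφ1 z)).trans h4
      have h5 : φ z * u z ^ 2 * ((1 + η) ^ 2 * (1 + η⁻¹) * X) ≤
          M ^ 2 * ((1 + η) ^ 2 * (1 + η⁻¹) * X) :=
        mul_le_mul_of_nonneg_right h3 (by positivity)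
      nlinarith
    · have h0 : φ z = 0 := image_eq_zero_of_notMem_tsupport hzs
      rw [h0]
      have : 0 ≤ (1 + η) ^ 2 * (1 + η⁻¹) * M ^ 2 := by positivity
      have := mul_nonneg this s0
      linarith
  refine key.trans ?_
  rw [integral_add i2 i3, integral_const_mul, integral_finsetSum _ fun s hs => (iE s hs).1]
  refine add_le_add le_rfl (mul_le_mul_of_nonneg_left ?_ (by positivity))
  exact Finset.sum_le_sum fun s hs => (iE s hs).2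

end

end Pool.Agent.Helper39.BW
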