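import Pool.Agent.Helper39.BW.Core1
import Pool.Agent.TH294.RG.Th3

/-!
Bounded sequences of high energy eigenfunctions: derivatives, integration by parts, and the
Helmholtz equation with frozen coefficients for localised solutions.
-/

set_option autoImplicit false
open MeasureTheory Filter Topology Complex Set ProbabilityTheory
open scoped Real ContDiff

namespace Pool.Agent.Helper39.BW

open Pool.Agent.W745.RW Pool.Agent.TH294.RS Pool.Agent.TH294.RG

noncomputable section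

variable {U : Set ℂ} {a : ℂ → ℝ} {h : ℕ → ℝ} {u : ℕ → ℂ → ℝ} {Mo : ℕ → ℂ → ℂ} {M : ℝ}

/-- all semiclassical derivatives of a bounded sequence of solutions are bounded -/
lemma mcU (hU : IsOpen U) (H : RawG U a h u Mo) (hM : ∀ n, ∀ z ∈ U, |u n z| ≤ M) :
    MC U h (fun n z => (u n z : ℂ)) := by
  have ha2 : ContDiffOn ℝ ∞ (fun z => ((a z : ℂ) ^ 2)⁻¹) U := by
    refine ContDiffOn.inv ((cxa H.sa).pow 2) fun z hz => ?_
    have := (H.pa z hz).ne'
    exact pow_ne_zero 2 (by exact_mod_cast this)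
  have sm : ∀ n, ContDiffOn ℝ ∞ (fun z => (u n z : ℂ)) U := fun n => cxa (H.sm n)
  have hb : LB U 4 (fun n z => (u n z : ℂ)) := by
    refine ⟨sm, fun K hK hKU => ?_⟩
    refine ⟨∫ z in K, M ^ 4, Eventually.of_forall fun n => ?_⟩
    refine intK_mono hK (((sm n).continuousOn.mono hKU).norm.pow 4) continuousOn_const
      fun z hz => ?_
    rw [norm_real, Real.norm_eq_abs]
    exact pow_le_pow_left₀ (abs_nonneg _) (hM n z (hKU hz)) 4
  intro k
  refine MK.sol hU H.hpos H.hlim hb ha2 (fun n z hz => ?_) k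
  have h1 := H.eq n z hz
  have h2 : ((h n ^ 2 * (a z ^ 2 * lap (u n) z) + u n z : ℝ) : ℂ) = 0 := by rw [h1]; simp
  have h3 : (a z : ℂ) ^ 2 ≠ 0 := pow_ne_zero 2 (by exact_mod_cast (H.pa z hz).ne')
  unfold hL
  rw [lap_re hU (H.sm n) hz]
  push_cast at h2
  have h4 : ((a z : ℂ) ^ 2)⁻¹ * (a z : ℂ) ^ 2 = 1 := inv_mul_cancel₀ h3
  linear_combination ((a z : ℂ) ^ 2)⁻¹ * h2 -
    ((h n : ℂ) ^ 2 * ((lap (u n) z : ℝ) : ℂ)) * h4

/-- second derivatives of a product -/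
lemma fd2_mul (hU : IsOpen U) {f g : ℂ → ℝ} (hf : ContDiffOn ℝ ∞ f U) (hg : ContDiffOn ℝ ∞ g U)
    {z : ℂ} (hz : z ∈ U) (v : ℂ) :
    fderiv ℝ (fun w => fderiv ℝ (fun x => f x * g x) w v) z v =
      f z * fderiv ℝ (fun w => fderiv ℝ g w v) z v + 2 * (fderiv ℝ f z v * fderiv ℝ g z v) +
        g z * fderiv ℝ (fun w => fderiv ℝ f w v) z v := by
  have d : ∀ {k : ℂ → ℝ}, ContDiffOn ℝ ∞ k U → ∀ w ∈ U, HasFDerivAt k (fderiv ℝ k w) w :=
    fun hk w hw => ((hk.contDiffAt (hU.mem_nhds hw)).differentiableAt (by simp)).hasFDerivAt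
  have cd : ∀ {k : ℂ → ℝ}, ContDiffOn ℝ ∞ k U → ContDiffOn ℝ ∞ (fun w => fderiv ℝ k w v) U :=
    fun hk => (hk.fderiv_of_isOpen hU (by simp)).clm_apply contDiffOn_const
  have e1 : ∀ w ∈ U, fderiv ℝ (fun x => f x * g x) w v =
      f w * fderiv ℝ g w v + g w * fderiv ℝ f w v := by
    intro w hw
    have h1 := ((d hf w hw).mul (d hg w hw)).fderiv
    change fderiv ℝ (fun x => f x * g x) w = _ at h1
    rw [h1]
    simp only [_root_.add_apply, _root_.smul_apply, smul_eq_mul]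
  have e2 : (fun w => fderiv ℝ (fun x => f x * g x) w v) =ᶠ[𝓝 z]
      fun w => f w * fderiv ℝ g w v + g w * fderiv ℝ f w v := by
    filter_upwards [hU.mem_nhds hz] with w hw
    exact e1 w hw
  rw [e2.fderiv_eq]
  have h2 := (((d hf z hz).mul (d (cd hg) z hz)).add ((d hg z hz).mul (d (cd hf) z hz))).fderiv
  change fderiv ℝ (fun w => f w * fderiv ℝ g w v + g w * fderiv ℝ f w v) z = _ at h2
  rw [h2]
  simp only [_root_.add_apply, _root_.smul_apply, smul_eq_mul]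
  ring

/-- the Laplacian of a product -/
lemma lap_mul (hU : IsOpen U) {f g : ℂ → ℝ} (hf : ContDiffOn ℝ ∞ f U) (hg : ContDiffOn ℝ ∞ g U)
    {z : ℂ} (hz : z ∈ U) : lap (fun x => f x * g x) z =
      f z * lap g z + 2 * (dx f z * dx g z + dy f z * dy g z) + g z * lap f z := by
  have h1 := fd2_mul hU hf hg hz 1
  have h2 := fd2_mul hU hf hg hz I
  unfold lap
  show fderiv ℝ (fun w => fderiv ℝ (fun x => f x * g x) w 1) z 1 +
    fderiv ℝ (fun w => fderiv ℝ (fun x => f x * g x) w I) z I = _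
  rw [h1, h2]
  show _ = f z * (fderiv ℝ (fun w => fderiv ℝ g w 1) z 1 +
    fderiv ℝ (fun w => fderiv ℝ g w I) z I) + 2 * (fderiv ℝ f z 1 * fderiv ℝ g z 1 +
      fderiv ℝ f z I * fderiv ℝ g z I) + g z * (fderiv ℝ (fun w => fderiv ℝ f w 1) z 1 +
    fderiv ℝ (fun w => fderiv ℝ f w I) z I)
  ring

/-- **Integration by parts** -/
lemma byparts (hU : IsOpen U) (H : RawG U a h u Mo) (hM : ∀ n, ∀ z ∈ U, |u n z| ≤ M)
    {φ : ℂ → ℝ} (hφ : TF U φ) :
    Tendsto (fun n => ∫ z, φ z * (3 * (u n z ^ 2 * (h n ^ 2 * (dx (u n) z ^ 2 + dy (u n) z ^ 2))) -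
      (a z ^ 2)⁻¹ * u n z ^ 4)) atTop (𝓝 0) := by
  have mc := mcU hU H hM
  have l0 : LB U 4 (fun n z => (u n z : ℂ)) := (mc 0)
  have G : ∀ v : ℂ, LB U 4 (hd h v (fun n z => (u n z : ℂ))) →
      WN U (fun n z => (h n : ℂ) * (((fun _ => (1 : ℝ)) z : ℂ) * fderiv ℝ
        (fun z => ((u n z : ℂ) * u n z) * ((u n z : ℂ) * hd h v (fun n z => (u n z : ℂ)) n z))
          z v)) := fun v hv =>
    LB.parts hU (G := fun n z => ((u n z : ℂ) * u n z) *
      ((u n z : ℂ) * hd h v (fun n z => (u n z : ℂ)) n z))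
      (LB.mul (p := 1) (LB.mul (p := 2) l0 l0) (LB.mul (p := 2) l0 hv)) H.hlim contDiffOn_const v
  have g1 := G 1 (mc 1).2.1
  have gI := G I (mc 1).2.2
  have gs := (g1.add gI).nul φ hφ
  have ev : ∀ (n : ℕ) (v : ℂ), ∀ z ∈ U, (h n : ℂ) * (((fun _ => (1 : ℝ)) z : ℂ) * fderiv ℝ
        (fun z => ((u n z : ℂ) * u n z) * ((u n z : ℂ) * hd h v (fun n z => (u n z : ℂ)) n z))
          z v) = ((3 * (u n z ^ 2 * (h n ^ 2 * fderiv ℝ (u n) z v ^ 2)) +
          h n ^ 2 * u n z ^ 3 * fderiv ℝ (fun w => fderiv ℝ (u n) w v) z v : ℝ) : ℂ) := by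
    intro n v z hz
    have cdu := H.sm n
    have d : ∀ {k : ℂ → ℝ}, ContDiffOn ℝ ∞ k U → ∀ w ∈ U, HasFDerivAt k (fderiv ℝ k w) w :=
      fun hk w hw => ((hk.contDiffAt (hU.mem_nhds hw)).differentiableAt (by simp)).hasFDerivAt
    have cd : ContDiffOn ℝ ∞ (fun w => fderiv ℝ (u n) w v) U :=
      (cdu.fderiv_of_isOpen hU (by simp)).clm_apply contDiffOn_const
    have e1 : (fun z => ((u n z : ℂ) * u n z) *
        ((u n z : ℂ) * hd h v (fun n z => (u n z : ℂ)) n z)) =ᶠ[𝓝 z]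
        fun z => ((h n * (u n z ^ 3 * fderiv ℝ (u n) z v) : ℝ) : ℂ) := by
      filter_upwards [hU.mem_nhds hz] with w hw
      unfold hd
      rw [Pool.Agent.TH294.RS.fd_re (d cdu w hw).differentiableAt v]
      push_cast; ring
    rw [e1.fderiv_eq]
    have h3 := (((d cdu z hz).pow 3).mul (d cd z hz)).const_mul (h n)
    have h4 : HasFDerivAt (fun z => h n * (u n z ^ 3 * fderiv ℝ (u n) z v)) _ z := h3
    rw [Pool.Agent.TH294.RS.fd_re h4.differentiableAt v, h4.fderiv]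
    rw [← ofReal_mul, ← ofReal_mul]
    congr 1
    simp only [_root_.add_apply, _root_.smul_apply, smul_eq_mul,
      nsmul_eq_mul]
    push_cast
    ring
  have e2 : ∀ n, ∫ z, (φ z : ℂ) * ((h n : ℂ) * (((fun _ => (1 : ℝ)) z : ℂ) * fderiv ℝ
        (fun z => ((u n z : ℂ) * u n z) * ((u n z : ℂ) * hd h 1 (fun n z => (u n z : ℂ)) n z))
          z 1) + (h n : ℂ) * (((fun _ => (1 : ℝ)) z : ℂ) * fderiv ℝ
        (fun z => ((u n z : ℂ) * u n z) * ((u n z : ℂ) * hd h I (fun n z => (u n z : ℂ)) n z))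
          z I)) = ((∫ z, φ z * (3 * (u n z ^ 2 * (h n ^ 2 * (dx (u n) z ^ 2 + dy (u n) z ^ 2))) -
      (a z ^ 2)⁻¹ * u n z ^ 4) : ℝ) : ℂ) := by
    intro n
    rw [← integral_complex_ofReal]
    refine integral_congr_ae (ae_of_all _ fun z => ?_)
    simp only
    by_cases hz : z ∈ U
    · have h1 := H.eq n z hz
      have h2 := (H.pa z hz).ne'
      have h3 : h n ^ 2 * lap (u n) z = -((a z ^ 2)⁻¹ * u n z) := by
        field_simp
        linear_combination h1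
      rw [ev n 1 z hz, ev n I z hz]
      have h4 : lap (u n) z = fderiv ℝ (fun w => fderiv ℝ (u n) w 1) z 1 +
        fderiv ℝ (fun w => fderiv ℝ (u n) w I) z I := rfl
      rw [h4] at h3
      have h5 : (3 * (u n z ^ 2 * (h n ^ 2 * fderiv ℝ (u n) z 1 ^ 2)) +
          h n ^ 2 * u n z ^ 3 * fderiv ℝ (fun w => fderiv ℝ (u n) w 1) z 1) +
          (3 * (u n z ^ 2 * (h n ^ 2 * fderiv ℝ (u n) z I ^ 2)) +
          h n ^ 2 * u n z ^ 3 * fderiv ℝ (fun w => fderiv ℝ (u n) w I) z I) =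
          3 * (u n z ^ 2 * (h n ^ 2 * (dx (u n) z ^ 2 + dy (u n) z ^ 2))) -
            (a z ^ 2)⁻¹ * u n z ^ 4 := by
        unfold dx dy
        linear_combination (u n z ^ 3) * h3
      rw [← h5]
      push_cast
      ring
    · rw [TF.zero hφ hz]; simp
  have e3 := gs.congr e2
  have e4 := (Complex.continuous_re.tendsto _).comp e3
  simpa [Function.comp_def] using e4

lemma sm_lap' (hU : IsOpen U) {f : ℂ → ℝ} (hf : ContDiffOn ℝ ∞ f U) :
    ContinuousOn (lap f) U := by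
  have cd : ∀ {k : ℂ → ℝ} (v : ℂ), ContDiffOn ℝ ∞ k U →
      ContDiffOn ℝ ∞ (fun w => fderiv ℝ k w v) U :=
    fun v hk => (hk.fderiv_of_isOpen hU (by simp)).clm_apply contDiffOn_const
  exact (cd 1 (cd 1 hf)).continuousOn.add (cd I (cd I hf)).continuousOn

/-- **The Helmholtz equation with frozen coefficients** -/
lemma hs_err (hU : IsOpen U) (H : RawG U a h u Mo) (hM0 : 0 ≤ M)
    (hM : ∀ n, ∀ z ∈ U, |u n z| ≤ M)
    {χ : ℂ → ℝ} (hχ : TF U χ) (hχ0 : ∀ z, 0 ≤ χ z) (hχ1 : ∀ z, χ z ≤ 1) {a0 ε : ℝ}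
    (hε : ∀ z ∈ tsupport χ, |1 - a0 ^ 2 * (a z ^ 2)⁻¹| ≤ ε) :
    ∃ C : ℝ, ∀ᶠ n in atTop,
      ∫ z, ((h n * a0) ^ 2 * lap (fun z => χ z * u n z) z + χ z * u n z) ^ 2 ≤
        2 * ε ^ 2 * M ^ 2 * volume.real (tsupport χ) + h n ^ 2 * C := by
  have mc := mcU hU H hM
  have hK : IsCompact (tsupport χ) := hχ.2.1
  have hKU : tsupport χ ⊆ U := hχ.2.2
  have cdχ : ∀ v : ℂ, ContDiffOn ℝ ∞ (fun z => ((fderiv ℝ χ z v : ℝ) : ℂ)) U := fun v =>
    (ofRealCLM.contDiff.comp (cd_fd hχ.1 v)).contDiffOn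
  have cdl : ContDiffOn ℝ ∞ (fun z => ((lap χ z : ℝ) : ℂ)) U := by
    have h1 : ContDiff ℝ ∞ (lap χ) := (cd_fd (cd_fd hχ.1 1) 1).add (cd_fd (cd_fd hχ.1 I) I)
    exact (ofRealCLM.contDiff.comp h1).contDiffOn
  obtain ⟨e, he⟩ : ∃ e : ℕ → ℂ → ℝ, ∀ n z, e n z = 2 * (dx χ z * (h n * dx (u n) z) +
      dy χ z * (h n * dy (u n) z)) + h n * (lap χ z * u n z) := ⟨_, fun _ _ => rfl⟩
  have l4 : LB U 4 (fun n z => (2 * (((fderiv ℝ χ z 1 : ℝ) : ℂ) *
      hd h 1 (fun n z => (u n z : ℂ)) n z + ((fderiv ℝ χ z I : ℝ) : ℂ) *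
      hd h I (fun n z => (u n z : ℂ)) n z)) + (h n : ℂ) * (((lap χ z : ℝ) : ℂ) * (u n z : ℂ))) :=
    ((((mc 1).2.1.lb.smulc (cdχ 1)).add ((mc 1).2.2.lb.smulc (cdχ I))).cmul 2).add
      (((mc 0).lb.smulc cdl).hmul H.hlim)
  have ee : ∀ n, ∀ z ∈ U, ((e n z : ℝ) : ℂ) = (2 * (((fderiv ℝ χ z 1 : ℝ) : ℂ) *
      hd h 1 (fun n z => (u n z : ℂ)) n z + ((fderiv ℝ χ z I : ℝ) : ℂ) *
      hd h I (fun n z => (u n z : ℂ)) n z)) + (h n : ℂ) * (((lap χ z : ℝ) : ℂ) * (u n z : ℂ)) := by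
    intro n z hz
    have du : DifferentiableAt ℝ (u n) z :=
      ((H.sm n).contDiffAt (hU.mem_nhds hz)).differentiableAt (by simp)
    unfold hd
    rw [Pool.Agent.TH294.RS.fd_re du 1, Pool.Agent.TH294.RS.fd_re du I, he]
    unfold dx dy
    push_cast
    ring
  have l2 : LB U 2 (fun n z => ((e n z : ℝ) : ℂ)) := (LB.low (p := 2) l4).congr ee
  obtain ⟨C, hC⟩ := l2.bd _ hK hKU
  refine ⟨2 * a0 ^ 4 * C, hC.mono fun n hn => ?_⟩
  have hn' : ∫ z in tsupport χ, e n z ^ 2 ≤ C := by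
    refine le_trans (le_of_eq ?_) hn
    refine setIntegral_congr_fun hK.measurableSet fun z _ => ?_
    simp only [norm_real, Real.norm_eq_abs, sq_abs]
  have hout : ∀ z, z ∉ tsupport χ →
      ((h n * a0) ^ 2 * lap (fun z => χ z * u n z) z + χ z * u n z) ^ 2 = 0 := by
    intro z hz
    have h0 : χ =ᶠ[𝓝 z] 0 := notMem_tsupport_iff_eventuallyEq.1 hz
    have h1 : (fun z => χ z * u n z) =ᶠ[𝓝 z] fun _ => 0 := by
      filter_upwards [h0] with w hw
      simp [hw]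
    have h2 : ∀ v : ℂ, (fun w => fderiv ℝ (fun z => χ z * u n z) w v) =ᶠ[𝓝 z] fun _ => 0 := by
      intro v
      filter_upwards [h1.eventuallyEq_nhds] with w hw
      rw [hw.fderiv_eq]; simp
    have h3 : lap (fun z => χ z * u n z) z = 0 := by
      show fderiv ℝ (fun w => fderiv ℝ (fun z => χ z * u n z) w 1) z 1 +
        fderiv ℝ (fun w => fderiv ℝ (fun z => χ z * u n z) w I) z I = 0
      rw [(h2 1).fderiv_eq, (h2 I).fderiv_eq]; simp
    have h4 : χ z = 0 := h0.eq_of_nhds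
    rw [h3, h4]; ring
  rw [← setIntegral_eq_integral_of_forall_compl_eq_zero (fun z hz => hout z hz)]
  have hv : TF U (fun z => χ z * u n z) := TF.mulc hU hχ (H.sm n)
  have c1 : ContinuousOn (fun z => ((h n * a0) ^ 2 * lap (fun z => χ z * u n z) z +
      χ z * u n z) ^ 2) (tsupport χ) :=
    (((continuousOn_const.mul (sm_lap' hU hv.1.contDiffOn)).add hv.1.continuous.continuousOn).pow
      2).mono hKU
  have c2 : ContinuousOn (fun z => e n z ^ 2) (tsupport χ) := by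
    have h1 : ContinuousOn (fun z => ((e n z : ℝ) : ℂ)) U := (l2.sm n).continuousOn
    have h2 : ContinuousOn (fun z => (((e n z : ℝ) : ℂ)).re ^ 2) U :=
      (Complex.continuous_re.comp_continuousOn h1).pow 2
    exact h2.mono hKU
  have key : ∫ z in tsupport χ, ((h n * a0) ^ 2 * lap (fun z => χ z * u n z) z +
      χ z * u n z) ^ 2 ≤ ∫ z in tsupport χ, (2 * ε ^ 2 * M ^ 2 +
        2 * a0 ^ 4 * h n ^ 2 * e n z ^ 2) := by
    refine intK_mono hK c1 (continuousOn_const.add (continuousOn_const.mul c2)) fun z hz => ?_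
    have hzU := hKU hz
    have h1 := H.eq n z hzU
    have h2 := (H.pa z hzU).ne'
    have h3 : h n ^ 2 * lap (u n) z = -((a z ^ 2)⁻¹ * u n z) := by
      field_simp
      linear_combination h1
    have h4 : (h n * a0) ^ 2 * lap (fun z => χ z * u n z) z + χ z * u n z =
        χ z * u n z * (1 - a0 ^ 2 * (a z ^ 2)⁻¹) + a0 ^ 2 * h n * e n z := by
      rw [lap_mul hU hχ.1.contDiffOn (H.sm n) hzU, he]
      linear_combination (a0 ^ 2 * χ z) * h3
    rw [h4]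
    have h5 : (χ z * u n z * (1 - a0 ^ 2 * (a z ^ 2)⁻¹)) ^ 2 ≤ ε ^ 2 * M ^ 2 := by
      have h6 : |χ z * u n z * (1 - a0 ^ 2 * (a z ^ 2)⁻¹)| ≤ ε * M := by
        rw [abs_mul, abs_mul, abs_of_nonneg (hχ0 z)]
        have h7 : χ z * |u n z| ≤ M :=
          (mul_le_of_le_one_left (abs_nonneg _) (hχ1 z)).trans (hM n z hzU)
        have h8 := mul_le_mul h7 (hε z hz) (abs_nonneg _) hM0
        linarith
      have h9 := pow_le_pow_left₀ (abs_nonneg _) h6 2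
      rw [sq_abs, mul_pow ε M] at h9
      exact h9
    nlinarith [sq_nonneg (χ z * u n z * (1 - a0 ^ 2 * (a z ^ 2)⁻¹) - a0 ^ 2 * h n * e n z)]
  refine key.trans ?_
  have i1 : IntegrableOn (fun _ : ℂ => 2 * ε ^ 2 * M ^ 2) (tsupport χ) :=
    integrableOn_const hK.measure_lt_top.ne
  have i2 : IntegrableOn (fun z => 2 * a0 ^ 4 * h n ^ 2 * e n z ^ 2) (tsupport χ) :=
    (continuousOn_const.mul c2).integrableOn_compact hK
  rw [integral_add i1 i2, setIntegral_const, integral_const_mul, smul_eq_mul]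
  have h1 := mul_le_mul_of_nonneg_left hn' (by positivity : 0 ≤ 2 * a0 ^ 4 * h n ^ 2)
  nlinarith

end

end Pool.Agent.Helper39.BW
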