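import Pool.Agent.Helper39.BW.Core2

/-!
The limit inequality with a fixed sampling formula.
-/

set_option autoImplicit false
open MeasureTheory Filter Topology Complex Set ProbabilityTheory
open scoped Real ContDiff

namespace Pool.Agent.Helper39.BW

open Pool.Agent.W745.RW Pool.Agent.TH294.RS Pool.Agent.TH294.RG

noncomputable section

lemma vol_ball (z : ℂ) {r : ℝ} (hr : 0 < r) :
    volume.real (Metric.closedBall z (4 * r)) = 16 * volume.real (Metric.closedBall z r) ∧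
      0 < volume.real (Metric.closedBall z r) := by
  have e : ∀ s : ℝ, 0 < s → volume.real (Metric.closedBall z s) = s ^ 2 * π := by
    intro s hs
    rw [Measure.real, Complex.volume_closedBall, ENNReal.toReal_mul, ENNReal.toReal_pow,
      ENNReal.toReal_ofReal hs.le]
    rfl
  rw [e _ hr, e _ (by linarith)]
  exact ⟨by ring, by positivity⟩

variable {U : Set ℂ} {a : ℂ → ℝ} {h : ℕ → ℝ} {u : ℕ → ℂ → ℝ} {M : ℝ} {m : ℂ → ℝ}
  {ν : Kernel ℂ ℝ}

/-- the limit of the second moment -/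
lemma lim2 [IsMarkovKernel ν] (H : RawG U a h u (MM m ea ν)) {φ : ℂ → ℝ} (hφ : TF U φ) :
    Tendsto (fun n => ∫ z, φ z * u n z ^ 2) atTop (𝓝 (∫ z, φ z * m z)) := by
  have h1 := H.qe φ hφ 0
  have e1 : ∀ n, ∫ z, (φ z : ℂ) * ((u n z : ℂ) * (DP a (h n))^[0] (fun w => (u n w : ℂ)) z) =
      ((∫ z, φ z * u n z ^ 2 : ℝ) : ℂ) := by
    intro n
    rw [← integral_complex_ofReal]
    refine integral_congr_ae (ae_of_all _ fun z => ?_)
    simp only [Function.iterate_zero, id]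
    push_cast; ring
  have e2 : ∫ z, (φ z : ℂ) * MM m ea ν 0 z = ((∫ z, φ z * m z : ℝ) : ℂ) := by
    rw [← integral_complex_ofReal]
    refine integral_congr_ae (ae_of_all _ fun z => ?_)
    simp only [MM_0]
    push_cast; ring
  rw [e2] at h1
  have h2 := (Complex.continuous_re.tendsto _).comp (h1.congr e1)
  simpa [Function.comp_def] using h2

/-- local square integrability of a continuous density -/
lemma hm2 (hm : ContinuousOn m U) : ∀ K' : Set ℂ, IsCompact K' → K' ⊆ U →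
    MemLp m 2 (volume.restrict K') := by
  intro K' hK' hK'Ω
  have cm : ContinuousOn m K' := hm.mono hK'Ω
  obtain ⟨C, hC⟩ := hK'.exists_bound_of_continuousOn cm
  have : IsFiniteMeasure (volume.restrict K') := ⟨by simpa using hK'.measure_lt_top⟩
  exact MemLp.of_bound (cm.aestronglyMeasurable hK'.measurableSet) C
    ((ae_restrict_mem hK'.measurableSet).mono hC)

/-- the limit of the third moment -/
lemma lim3 [IsMarkovKernel ν] (hm : ContinuousOn m U)
    (hp : ∀ᵐ z ∂(volume.restrict U), par ea (ν z) = 0) (H : RawG U a h u (MM m ea ν))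
    (hM : ∀ n, ∀ z ∈ U, |u n z| ≤ M) {K : Set ℂ} (hK : IsCompact K) (hKU : K ⊆ U)
    {φ : ℂ → ℝ} (hφ : TF (interior K) φ) :
    Tendsto (fun n => ∫ z, φ z * u n z ^ 3) atTop (𝓝 0) := by
  have key := third_lim (hm2 hm) hp H hK hKU hφ 0 0 0
  have e1 : ∀ n, ((√(1 + ∫ z in K, u n z ^ 4) : ℝ) : ℂ)⁻¹ * ∫ z, (φ z : ℂ) *
      (ww a h (fun n z => (u n z : ℂ)) 0 n z * ww a h (fun n z => (u n z : ℂ)) 0 n z *
        ww a h (fun n z => (u n z : ℂ)) 0 n z) =
      (((√(1 + ∫ z in K, u n z ^ 4))⁻¹ * ∫ z, φ z * u n z ^ 3 : ℝ) : ℂ) := by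
    intro n
    rw [ofReal_mul, ofReal_inv, ← integral_complex_ofReal]
    congr 1
    refine integral_congr_ae (ae_of_all _ fun z => ?_)
    have : ww a h (fun n z => (u n z : ℂ)) 0 n z = (u n z : ℂ) := rfl
    simp only [this]
    push_cast; ring
  have h2 : Tendsto (fun n => (√(1 + ∫ z in K, u n z ^ 4))⁻¹ * ∫ z, φ z * u n z ^ 3) atTop
      (𝓝 0) := by
    have := (Complex.continuous_re.tendsto _).comp (key.congr e1)
    simpa [Function.comp_def] using this
  have Kf : volume K ≠ ⊤ := hK.measure_lt_top.ne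
  have hb : ∀ n, ∫ z in K, u n z ^ 4 ≤ M ^ 4 * volume.real K := by
    intro n
    have h3 : ∫ z in K, u n z ^ 4 ≤ ∫ z in K, M ^ 4 := by
      refine intK_mono hK (((H.sm n).continuousOn.mono hKU).pow 4) continuousOn_const
        fun z hz => ?_
      have h4 : u n z ^ 4 = |u n z| ^ 4 := by rw [Even.pow_abs (by decide)]
      rw [h4]
      exact pow_le_pow_left₀ (abs_nonneg _) (hM n z (hKU hz)) 4
    rw [setIntegral_const, smul_eq_mul, mul_comm] at h3
    exact h3
  have h0 : ∀ n, 0 ≤ ∫ z in K, u n z ^ 4 := fun n => integral_nonneg fun z => by positivity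
  obtain ⟨D, hD⟩ : ∃ D : ℝ, D = √(1 + M ^ 4 * volume.real K) := ⟨_, rfl⟩
  have h5 := h2.abs.const_mul D
  rw [abs_zero, mul_zero] at h5
  refine squeeze_zero_norm (fun n => ?_) h5
  have h6 : √(1 + ∫ z in K, u n z ^ 4) ≤ D := by
    rw [hD]; exact Real.sqrt_le_sqrt (by linarith [hb n])
  have h7 : 0 < √(1 + ∫ z in K, u n z ^ 4) := Real.sqrt_pos.2 (by linarith [h0 n])
  rw [Real.norm_eq_abs, abs_mul, abs_of_pos (inv_pos.2 h7)]
  have h8 : |∫ z, φ z * u n z ^ 3| = √(1 + ∫ z in K, u n z ^ 4) *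
      ((√(1 + ∫ z in K, u n z ^ 4))⁻¹ * |∫ z, φ z * u n z ^ 3|) := by
    rw [← mul_assoc, mul_inv_cancel₀ h7.ne', one_mul]
  calc |∫ z, φ z * u n z ^ 3| = √(1 + ∫ z in K, u n z ^ 4) *
      ((√(1 + ∫ z in K, u n z ^ 4))⁻¹ * |∫ z, φ z * u n z ^ 3|) := h8
    _ ≤ D * ((√(1 + ∫ z in K, u n z ^ 4))⁻¹ * |∫ z, φ z * u n z ^ 3|) :=
      mul_le_mul_of_nonneg_right h6 (by positivity)

/-- the lower bound for the fourth moment -/
lemma low4 [IsMarkovKernel ν] (hU : IsOpen U) (hm : ContinuousOn m U)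
    (hp : ∀ᵐ z ∂(volume.restrict U), par ea (ν z) = 0) (H : RawG U a h u (MM m ea ν))
    {φ : ℂ → ℝ} (hφ : TF U φ) (hφ0 : ∀ z, 0 ≤ φ z) {τ : ℝ} (hτ : 0 < τ) :
    ∀ᶠ n in atTop, 3 * (∫ z, φ z * m z ^ 2) - τ ≤ ∫ z, φ z * u n z ^ 4 := by
  have key := RawG.main hU ea_meas ea_norm (hm2 hm) H hφ hφ0 hτ
  have e : ∫ z, φ z * GD m ea ν z = 3 * ∫ z, φ z * m z ^ 2 := by
    rw [← integral_const_mul]
    have h1 : ∀ᵐ z ∂(volume : Measure ℂ), z ∈ U → par ea (ν z) = 0 :=
      (ae_restrict_iff' hU.measurableSet).1 hp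
    refine integral_congr_ae (h1.mono fun z hz => ?_)
    by_cases hzU : z ∈ U
    · simp only [GD, hz hzU]; ring
    · simp only [TF.zero hφ hzU]; ring
  rw [e] at key
  exact key

end

end Pool.Agent.Helper39.BW
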