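import Pool.Agent.Helper39.BW.Core3

/-!
The limit inequality in a small ball.
-/

set_option autoImplicit false
open MeasureTheory Filter Topology Complex Set ProbabilityTheory
open scoped Real ContDiff

namespace Pool.Agent.Helper39.BW

open Pool.Agent.W745.RW Pool.Agent.TH294.RS Pool.Agent.TH294.RG

noncomputable section

variable {U : Set ℂ} {a : ℂ → ℝ} {h : ℕ → ℝ} {u : ℕ → ℂ → ℝ} {M : ℝ} {m : ℂ → ℝ}
  {ν : Kernel ℂ ℝ}

/-- the set where the values are outside `[-α, β]` -/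
def Bad (U : Set ℂ) (u : ℕ → ℂ → ℝ) (α β : ℝ) (n : ℕ) : Set ℂ :=
  {w | w ∈ U ∧ (u n w < -α ∨ β < u n w)}

lemma bad_meas (hU : IsOpen U) (H : ∀ n, ContDiffOn ℝ ∞ (u n) U) (α β : ℝ) (n : ℕ) :
    MeasurableSet (Bad U u α β n) := by
  have : Bad U u α β n = U ∩ u n ⁻¹' (Iio (-α) ∪ Ioi β) := by
    ext w
    simp only [Bad, Set.mem_ofPred_eq, mem_inter_iff, mem_preimage, mem_union, mem_Iio, mem_Ioi]
  rw [this]
  exact ((H n).continuousOn.isOpen_inter_preimage hU (isOpen_Iio.union isOpen_Ioi)).measurableSet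

/-- **The inequality in a small ball** -/
theorem core_small [IsMarkovKernel ν] (hU : IsOpen U) (hUf : volume U ≠ ⊤)
    (H : RawG U a h u (MM m ea ν)) (hm : ContinuousOn m U)
    (hp : ∀ᵐ z ∂(volume.restrict U), par ea (ν z) = 0)
    (hM0 : 0 ≤ M) (hM : ∀ n, ∀ z ∈ U, |u n z| ≤ M) {α β : ℝ} (hα : 0 ≤ α) (hβ : 0 ≤ β)
    (hA : Tendsto (fun n => volume.real (Bad U u α β n)) atTop (𝓝 0))
    {z₀ : ℂ} (hz₀ : z₀ ∈ U) {η : ℝ} (hη : 0 < η) {N : Finset (ℝ × ℂ)}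
    (hN : ∀ (p : ℝ) (q : ℂ), ∃ s ∈ N, √(p ^ 2 + ‖q‖ ^ 2) ≤
      (1 + η) * (s.1 * p + (inner ℝ s.2 q : ℝ)))
    {S : ℝ × ℂ → Finset ℤ} {c : ℝ × ℂ → ℤ → ℝ} {y : ℝ × ℂ → ℤ → ℂ} {δ : ℝ} (hδ : 0 ≤ δ)
    (hc : ∀ s ∈ N, ∑ k ∈ S s, |c s k| ≤ 1) (hd : ∀ s ∈ N, |s.1 - ∑ k ∈ S s, c s k| ≤ δ)
    (hmu : ∀ s ∈ N, ∀ ξ : ℂ, ‖ξ‖ ≤ 1 → ‖mu s.1 s.2 (S s) (c s) (y s) ξ‖ ≤ δ)
    {ε : ℝ} (hε : 0 < ε) (hε1 : ε < 1) (hεm : ε < m z₀) :
    (4 - ε) * (m z₀ - ε) ^ 2 ≤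
      ((1 + η) ^ 3 * ((α + β) / 2 + |(β - α) / 2| * δ) ^ 2 - ((β - α) / 2) ^ 2) * (m z₀ + ε) +
      (1 + η) ^ 2 * (1 + η⁻¹) * M ^ 2 * ∑ s ∈ N, (64 * δ ^ 2 * M ^ 2 +
        128 * (‖s.2‖ + ∑ k ∈ S s, |c s k| * ‖y s k‖) ^ 2 * (ε ^ 2 * M ^ 2)) := by
  -- the radius
  have ha0 : 0 < a z₀ := H.pa z₀ hz₀
  have ca : ContinuousAt a z₀ := H.sa.continuousOn.continuousAt (hU.mem_nhds hz₀)
  have cm : ContinuousAt m z₀ := hm.continuousAt (hU.mem_nhds hz₀)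
  have cb : ContinuousAt (fun z => 1 - a z₀ ^ 2 * (a z ^ 2)⁻¹) z₀ :=
    continuousAt_const.sub (continuousAt_const.mul ((ca.pow 2).inv₀ (pow_pos ha0 2).ne'))
  have v0 : 1 - a z₀ ^ 2 * (a z₀ ^ 2)⁻¹ = 0 := by
    rw [mul_inv_cancel₀ (by positivity), sub_self]
  have ev : ∀ᶠ z in 𝓝 z₀, z ∈ U ∧ |m z - m z₀| ≤ ε ∧ |1 - a z₀ ^ 2 * (a z ^ 2)⁻¹| ≤ ε := by
    have ev0 : ∀ᶠ z in 𝓝 z₀, z ∈ U := hU.mem_nhds hz₀
    refine ev0.and (Eventually.and ?_ ?_)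
    · have h1 := (cm.sub_const (m z₀)).abs.eventually (gt_mem_nhds
        (show |m z₀ - m z₀| < ε by rw [sub_self, abs_zero]; exact hε))
      exact h1.mono fun z hz => le_of_lt hz
    · have h1 := cb.abs.eventually (gt_mem_nhds
        (show |1 - a z₀ ^ 2 * (a z₀ ^ 2)⁻¹| < ε by rw [v0, abs_zero]; exact hε))
      exact h1.mono fun z hz => le_of_lt hz
  obtain ⟨R, hR0, hR⟩ := Metric.nhds_basis_closedBall.eventually_iff.1 ev
  obtain ⟨r, hr⟩ : ∃ r : ℝ, r = R / 4 := ⟨_, rfl⟩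
  have r0 : 0 < r := by rw [hr]; positivity
  have hR4 : R = 4 * r := by rw [hr]; ring
  rw [hR4] at hR
  -- the cut-offs
  obtain ⟨fφ, hfi, hfo⟩ : ∃ f : ContDiffBump z₀, f.rIn = r ∧ f.rOut = 2 * r :=
    ⟨⟨r, 2 * r, r0, by linarith⟩, rfl, rfl⟩
  obtain ⟨fχ, hgi, hgo⟩ : ∃ f : ContDiffBump z₀, f.rIn = 3 * r ∧ f.rOut = 4 * r :=
    ⟨⟨3 * r, 4 * r, by linarith, by linarith⟩, rfl, rfl⟩
  obtain ⟨φ, hφd⟩ : ∃ φ : ℂ → ℝ, φ = fφ := ⟨_, rfl⟩
  obtain ⟨χ, hχd⟩ : ∃ χ : ℂ → ℝ, χ = fχ := ⟨_, rfl⟩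
  have tφ : tsupport φ = Metric.closedBall z₀ (2 * r) := by rw [hφd, fφ.tsupport_eq, hfo]
  have tχ : tsupport χ = Metric.closedBall z₀ (4 * r) := by rw [hχd, fχ.tsupport_eq, hgo]
  have φ0 : ∀ z, 0 ≤ φ z := fun z => by rw [hφd]; exact fφ.nonneg
  have φ1 : ∀ z, φ z ≤ 1 := fun z => by rw [hφd]; exact fφ.le_one
  have χ0 : ∀ z, 0 ≤ χ z := fun z => by rw [hχd]; exact fχ.nonneg
  have χ1 : ∀ z, χ z ≤ 1 := fun z => by rw [hχd]; exact fχ.le_one
  have hB4 : Metric.closedBall z₀ (4 * r) ⊆ U := fun z hz => (hR hz).1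
  have hφ : TF U φ := ⟨by rw [hφd]; exact fφ.contDiff, by rw [hφd]; exact fφ.hasCompactSupport,
    by rw [tφ]; exact (Metric.closedBall_subset_closedBall (by linarith)).trans hB4⟩
  have hχ : TF U χ := ⟨by rw [hχd]; exact fχ.contDiff, by rw [hχd]; exact fχ.hasCompactSupport,
    by rw [tχ]; exact hB4⟩
  have hφK : TF (interior (Metric.closedBall z₀ (3 * r))) φ := by
    refine ⟨hφ.1, hφ.2.1, ?_⟩
    rw [tφ]
    refine subset_trans ?_ (Metric.ball_subset_interior_closedBall)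
    exact Metric.closedBall_subset_ball (by linarith)
  have sφ : ∀ z ∈ tsupport φ, z ∈ U ∧ |m z - m z₀| ≤ ε ∧
      |1 - a z₀ ^ 2 * (a z ^ 2)⁻¹| ≤ ε := fun z hz => by
    rw [tφ] at hz
    exact hR (Metric.closedBall_subset_closedBall (by linarith) hz)
  -- the volume
  obtain ⟨V, hV⟩ : ∃ V : ℝ, V = ∫ z, φ z := ⟨_, rfl⟩
  obtain ⟨hvol, hvol0⟩ := vol_ball z₀ r0
  have iφ : Integrable φ := hφ.1.continuous.integrable_of_hasCompactSupport hφ.2.1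
  have hV1 : volume.real (Metric.closedBall z₀ r) ≤ V := by
    have h1 : ∫ z in Metric.closedBall z₀ r, φ z ≤ V := by
      rw [hV]; exact setIntegral_le_integral iφ (ae_of_all _ φ0)
    have h2 : ∫ z in Metric.closedBall z₀ r, φ z = volume.real (Metric.closedBall z₀ r) := by
      rw [setIntegral_congr_fun (g := fun _ => (1 : ℝ)) measurableSet_closedBall (fun z hz => by
        rw [hφd]
        exact fφ.one_of_mem_closedBall (by rw [hfi]; exact hz))]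
      simp
    rw [h2] at h1; exact h1
  have hV0 : 0 < V := lt_of_lt_of_le hvol0 hV1
  have hVχ : volume.real (tsupport χ) ≤ 16 * V := by rw [tχ, hvol]; linarith
  -- constants
  obtain ⟨c0, hc0⟩ : ∃ c0 : ℝ, c0 = (β - α) / 2 := ⟨_, rfl⟩
  obtain ⟨Hh, hHh⟩ : ∃ Hh : ℝ, Hh = (α + β) / 2 := ⟨_, rfl⟩
  rw [← hc0, ← hHh]
  have Hh0 : 0 ≤ Hh := by rw [hHh]; positivity
  obtain ⟨K, hK⟩ : ∃ K : ℝ, K = (1 + η) ^ 3 * (Hh + |c0| * δ) ^ 2 := ⟨_, rfl⟩
  rw [← hK]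
  have hKc : 0 ≤ K - c0 ^ 2 := by
    have h1 : |c0| ≤ Hh := by rw [hc0, hHh, abs_le]; constructor <;> linarith
    have h2 : c0 ^ 2 ≤ Hh ^ 2 := by
      rw [← sq_abs c0]; exact pow_le_pow_left₀ (abs_nonneg _) h1 2
    have h3 : Hh ^ 2 ≤ (Hh + |c0| * δ) ^ 2 :=
      pow_le_pow_left₀ Hh0 (by have := mul_nonneg (abs_nonneg c0) hδ; linarith) 2
    have h4 : (1 : ℝ) ≤ (1 + η) ^ 3 := one_le_pow₀ (by linarith)
    have h5 : (Hh + |c0| * δ) ^ 2 ≤ K := by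
      rw [hK]; exact le_mul_of_one_le_left (sq_nonneg _) h4
    linarith
  obtain ⟨Cη, hCη⟩ : ∃ Cη : ℝ, Cη = (1 + η) ^ 2 * (1 + η⁻¹) * M ^ 2 := ⟨_, rfl⟩
  rw [← hCη]
  have Cη0 : 0 ≤ Cη := by rw [hCη]; positivity
  obtain ⟨L, hL⟩ : ∃ L : ℝ × ℂ → ℝ, ∀ s, L s = (‖s.2‖ + ∑ k ∈ S s, |c s k| * ‖y s k‖) ^ 2 :=
    ⟨_, fun _ => rfl⟩
  have L0 : ∀ s, 0 ≤ L s := fun s => by rw [hL]; positivity
  simp only [← hL]
  -- error terms
  obtain ⟨CE, hCE⟩ := hs_err hU H hM0 hM hχ χ0 χ1 (a0 := a z₀) (ε := ε)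
    (fun z hz => by rw [tχ] at hz; exact (hR hz).2.2)
  obtain ⟨Yt, hYt⟩ : ∃ Yt : ℝ, Yt = ∑ s ∈ N, ∑ k ∈ S s, ‖y s k‖ := ⟨_, rfl⟩
  have hYt1 : ∀ s ∈ N, ∀ k ∈ S s, ‖y s k‖ ≤ Yt := by
    intro s hs k hk
    rw [hYt]
    refine le_trans (Finset.single_le_sum (f := fun k => ‖y s k‖) (fun _ _ => norm_nonneg _) hk) ?_
    exact Finset.single_le_sum (f := fun s => ∑ k ∈ S s, ‖y s k‖)
      (fun _ _ => Finset.sum_nonneg fun _ _ => norm_nonneg _) hs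
  have hsmall : ∀ᶠ n in atTop, |h n * a z₀| * Yt < r := by
    have h1 : Tendsto (fun n => |h n * a z₀| * Yt) atTop (𝓝 0) := by
      have := ((H.hlim.mul_const (a z₀)).abs).mul_const Yt
      simpa using this
    exact h1.eventually (gt_mem_nhds r0)
  obtain ⟨C1, hC1⟩ : ∃ C1 : ℝ, C1 = M + |c0| := ⟨_, rfl⟩
  -- the sequences
  obtain ⟨P, hP⟩ : ∃ P : ℕ → ℝ, ∀ n, P n = ∫ z, φ z * u n z ^ 4 := ⟨_, fun _ => rfl⟩
  obtain ⟨Q, hQ⟩ : ∃ Q : ℕ → ℝ, ∀ n, Q n = ∫ z, φ z * u n z ^ 2 := ⟨_, fun _ => rfl⟩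
  obtain ⟨T, hT⟩ : ∃ T : ℕ → ℝ, ∀ n, T n = ∫ z, φ z * u n z ^ 3 := ⟨_, fun _ => rfl⟩
  obtain ⟨Z, hZ⟩ : ∃ Z : ℕ → ℝ, ∀ n, Z n = ∫ z, φ z * (3 * (u n z ^ 2 * (h n ^ 2 *
    (dx (u n) z ^ 2 + dy (u n) z ^ 2))) - (a z ^ 2)⁻¹ * u n z ^ 4) := ⟨_, fun _ => rfl⟩
  have lQ : Tendsto Q atTop (𝓝 (∫ z, φ z * m z)) := (lim2 H hφ).congr fun n => (hQ n).symm
  have lT : Tendsto T atTop (𝓝 0) :=
    (lim3 hm hp H hM (isCompact_closedBall z₀ (3 * r))
      ((Metric.closedBall_subset_closedBall (by linarith)).trans hB4) hφK).congr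
      fun n => (hT n).symm
  have lZ : Tendsto Z atTop (𝓝 0) := (byparts hU H hM hφ).congr fun n => (hZ n).symm
  -- the main inequality
  obtain ⟨RH, hRH⟩ : ∃ RH : ℕ → ℝ, ∀ n, RH n = (K - c0 ^ 2) * Q n + 2 * c0 * T n -
      a z₀ ^ 2 * Z n / 3 + Cη * ∑ s ∈ N, (64 * δ ^ 2 * M ^ 2 * V +
        4 * L s * (2 * ε ^ 2 * M ^ 2 * (16 * V) + h n ^ 2 * CE) +
        2 * C1 ^ 2 * volume.real (Bad U u α β n)) := ⟨_, fun _ => rfl⟩
  have main : ∀ᶠ n in atTop, (4 - ε) / 3 * P n ≤ RH n := by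
    filter_upwards [hCE, hsmall] with n hn1 hn2
    have ci : ∀ {F : ℂ → ℝ}, ContinuousOn F U → Integrable (fun z => φ z * F z) := fun hF =>
      Pool.Agent.W311.RW.int_mul hU hφ hF
    have cu := (H.sm n).continuousOn
    have cf : ∀ v : ℂ, ContinuousOn (fun z => fderiv ℝ (u n) z v) U := fun v =>
      (((H.sm n).continuousOn_fderiv_of_isOpen hU (by simp)).clm_apply continuousOn_const)
    have cgr : ContinuousOn (fun z => u n z ^ 2 * (h n ^ 2 *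
        (dx (u n) z ^ 2 + dy (u n) z ^ 2))) U :=
      (cu.pow 2).mul (continuousOn_const.mul (((cf 1).pow 2).add ((cf I).pow 2)))
    have ca2 : ContinuousOn (fun z => (a z ^ 2)⁻¹) U :=
      (H.sa.continuousOn.pow 2).inv₀ fun z hz => (pow_pos (H.pa z hz) 2).ne'
    have hnode : ∀ z ∈ tsupport φ, ∀ s ∈ N, ∀ k ∈ S s,
        z + ((h n * a z₀ : ℝ) : ℂ) * y s k ∈ Metric.closedBall z₀ (3 * r) := by
      intro z hz s hs k hk
      rw [tφ, Metric.mem_closedBall, dist_eq_norm] at hz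
      rw [Metric.mem_closedBall, dist_eq_norm]
      have h1 : ‖((h n * a z₀ : ℝ) : ℂ) * y s k‖ ≤ r := by
        rw [norm_mul, norm_real, Real.norm_eq_abs]
        exact (mul_le_mul_of_nonneg_left (hYt1 s hs k hk) (abs_nonneg _)).trans hn2.le
      have e : z + ((h n * a z₀ : ℝ) : ℂ) * y s k - z₀ =
        (z - z₀) + ((h n * a z₀ : ℝ) : ℂ) * y s k := by ring
      rw [e]
      exact (norm_add_le _ _).trans (by linarith)
    have key := bs_int (t := h n * a z₀) hη hN hc hd hmu hU (H.sm n)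
      (bad_meas hU H.sm α β n)
      (ne_top_of_le_ne_top hUf (measure_mono fun w hw => hw.1)) (C1 := C1) Hh0 (hM n) hφ φ0 φ1 hχ
      (fun z hz => by
        rw [hχd]
        refine fχ.eventuallyEq_one_of_mem_ball ?_
        rw [hgi]; rw [tφ] at hz
        exact Metric.closedBall_subset_ball (by linarith) hz)
      (fun z hz s hs k hk => by
        rw [hχd]
        exact fχ.one_of_mem_closedBall (by rw [hgi]; exact hnode z hz s hs k hk))
      (fun z hz s hs k hk => by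
        have hx := hnode z hz s hs k hk
        obtain ⟨x, hxd⟩ : ∃ x : ℂ, x = z + ((h n * a z₀ : ℝ) : ℂ) * y s k := ⟨_, rfl⟩
        rw [← hxd] at hx ⊢
        have hxU : x ∈ U := hB4 (Metric.closedBall_subset_closedBall (by linarith) hx)
        by_cases hxA : x ∈ Bad U u α β n
        · rw [indicator_of_mem hxA, mul_one, hC1]
          have h1 : |u n x - c0| ≤ |u n x| + |c0| := abs_sub _ _
          have h2 := hM n x hxU
          linarith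
        · rw [indicator_of_notMem hxA, mul_zero, add_zero]
          have h1 : ¬ (u n x < -α ∨ β < u n x) := fun hh => hxA ⟨hxU, hh⟩
          push Not at h1
          rw [hc0, hHh, abs_le]
          constructor <;> linarith [h1.1, h1.2])
    rw [← hK, ← hCη] at key
    simp only [← hL] at key
    -- the left side
    have e1 : 3 * ∫ z, φ z * (u n z ^ 2 * ((h n * a z₀) ^ 2 *
        (dx (u n) z ^ 2 + dy (u n) z ^ 2))) =
        a z₀ ^ 2 * Z n + ∫ z, φ z * (a z₀ ^ 2 * (a z ^ 2)⁻¹ * u n z ^ 4) := by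
      have i1 : Integrable (fun z => φ z * (3 * (u n z ^ 2 * (h n ^ 2 *
          (dx (u n) z ^ 2 + dy (u n) z ^ 2))) - (a z ^ 2)⁻¹ * u n z ^ 4)) :=
        ci ((continuousOn_const.mul cgr).sub (ca2.mul (cu.pow 4)))
      have i2 : Integrable (fun z => φ z * (a z₀ ^ 2 * (a z ^ 2)⁻¹ * u n z ^ 4)) :=
        ci ((continuousOn_const.mul ca2).mul (cu.pow 4))
      rw [hZ, ← integral_const_mul, ← integral_const_mul, ← integral_add (i1.const_mul _) i2]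
      refine integral_congr_ae (ae_of_all _ fun z => ?_)
      simp only
      ring
    have e2 : (1 - ε) * P n ≤ ∫ z, φ z * (a z₀ ^ 2 * (a z ^ 2)⁻¹ * u n z ^ 4) := by
      rw [hP, ← integral_const_mul]
      have i1 : Integrable (fun z => φ z * u n z ^ 4) := ci (cu.pow 4)
      have i2 : Integrable (fun z => φ z * (a z₀ ^ 2 * (a z ^ 2)⁻¹ * u n z ^ 4)) :=
        ci ((continuousOn_const.mul ca2).mul (cu.pow 4))
      refine integral_mono (i1.const_mul _) i2 fun z => ?_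
      show (1 - ε) * (φ z * u n z ^ 4) ≤ φ z * (a z₀ ^ 2 * (a z ^ 2)⁻¹ * u n z ^ 4)
      by_cases hz : z ∈ tsupport φ
      · have h1 := (abs_le.1 (sφ z hz).2.2).2
        have h2 : 0 ≤ φ z * u n z ^ 4 := mul_nonneg (φ0 z) (by positivity)
        have h3 := mul_le_mul_of_nonneg_right
          (show 1 - ε ≤ a z₀ ^ 2 * (a z ^ 2)⁻¹ by linarith) h2
        linarith
      · rw [image_eq_zero_of_notMem_tsupport hz]; simp
    -- the right side
    have e3 : ∫ z, φ z * (u n z ^ 2 * (K - (u n z - c0) ^ 2)) =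
        (K - c0 ^ 2) * Q n + 2 * c0 * T n - P n := by
      have i2 : Integrable (fun z => φ z * u n z ^ 2) := ci (cu.pow 2)
      have i3 : Integrable (fun z => φ z * u n z ^ 3) := ci (cu.pow 3)
      have i4 : Integrable (fun z => φ z * u n z ^ 4) := ci (cu.pow 4)
      have i5 : Integrable (fun z => (K - c0 ^ 2) * (φ z * u n z ^ 2) +
        2 * c0 * (φ z * u n z ^ 3)) := (i2.const_mul _).add (i3.const_mul _)
      rw [hQ, hT, hP, ← integral_const_mul, ← integral_const_mul,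
        ← integral_add (i2.const_mul _) (i3.const_mul _), ← integral_sub i5 i4]
      refine integral_congr_ae (ae_of_all _ fun z => ?_)
      simp only
      ring
    have e4 : ∫ z, (χ z * u n z) ^ 2 ≤ M ^ 2 * (16 * V) := by
      have hv : TF U (fun z => χ z * u n z) := TF.mulc hU hχ (H.sm n)
      have h1 : ∫ z, (χ z * u n z) ^ 2 = ∫ z in tsupport χ, (χ z * u n z) ^ 2 := by
        refine (setIntegral_eq_integral_of_forall_compl_eq_zero fun z hz => ?_).symm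
        rw [image_eq_zero_of_notMem_tsupport hz]; simp
      have h2 : ∫ z in tsupport χ, (χ z * u n z) ^ 2 ≤ ∫ z in tsupport χ, M ^ 2 := by
        refine intK_mono hχ.2.1 (hv.1.continuous.continuousOn.pow 2) continuousOn_const
          fun z hz => ?_
        have h3 : |χ z * u n z| ≤ M := by
          rw [abs_mul, abs_of_nonneg (χ0 z)]
          exact (mul_le_of_le_one_left (abs_nonneg _) (χ1 z)).trans (hM n z (hχ.2.2 hz))
        rw [← sq_abs]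
        exact pow_le_pow_left₀ (abs_nonneg _) h3 2
      rw [h1]
      refine h2.trans ?_
      rw [setIntegral_const, smul_eq_mul, mul_comm]
      exact mul_le_mul_of_nonneg_left hVχ (sq_nonneg _)
    have e5 : ∫ z, ((h n * a z₀) ^ 2 * lap (fun z => χ z * u n z) z + χ z * u n z) ^ 2 ≤
        2 * ε ^ 2 * M ^ 2 * (16 * V) + h n ^ 2 * CE := by
      refine hn1.trans ?_
      have := mul_le_mul_of_nonneg_left hVχ (by positivity : 0 ≤ 2 * ε ^ 2 * M ^ 2)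
      linarith
    have e6 : Cη * ∑ s ∈ N, (4 * δ ^ 2 * (∫ z, (χ z * u n z) ^ 2) +
        4 * L s * (∫ z, ((h n * a z₀) ^ 2 * lap (fun z => χ z * u n z) z + χ z * u n z) ^ 2) +
        2 * C1 ^ 2 * volume.real (Bad U u α β n)) ≤ Cη * ∑ s ∈ N, (64 * δ ^ 2 * M ^ 2 * V +
        4 * L s * (2 * ε ^ 2 * M ^ 2 * (16 * V) + h n ^ 2 * CE) +
        2 * C1 ^ 2 * volume.real (Bad U u α β n)) := by
      refine mul_le_mul_of_nonneg_left (Finset.sum_le_sum fun s _ => ?_) Cη0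
      have h1 := mul_le_mul_of_nonneg_left e4 (by positivity : 0 ≤ 4 * δ ^ 2)
      have h2 := mul_le_mul_of_nonneg_left e5 (by have := L0 s; positivity : 0 ≤ 4 * L s)
      linarith
    rw [e3] at key
    rw [hRH]
    linarith
  -- the limit
  have lR : Tendsto RH atTop (𝓝 ((K - c0 ^ 2) * (∫ z, φ z * m z) + 2 * c0 * 0 -
      a z₀ ^ 2 * 0 / 3 + Cη * ∑ s ∈ N, (64 * δ ^ 2 * M ^ 2 * V +
        4 * L s * (2 * ε ^ 2 * M ^ 2 * (16 * V) + 0 ^ 2 * CE) + 2 * C1 ^ 2 * 0))) := by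
    have h1 := ((lQ.const_mul (K - c0 ^ 2)).add (lT.const_mul (2 * c0))).sub
      ((lZ.const_mul (a z₀ ^ 2)).div_const 3)
    have h2 : Tendsto (fun n => Cη * ∑ s ∈ N, (64 * δ ^ 2 * M ^ 2 * V +
        4 * L s * (2 * ε ^ 2 * M ^ 2 * (16 * V) + h n ^ 2 * CE) +
        2 * C1 ^ 2 * volume.real (Bad U u α β n))) atTop (𝓝 (Cη * ∑ s ∈ N,
        (64 * δ ^ 2 * M ^ 2 * V +
        4 * L s * (2 * ε ^ 2 * M ^ 2 * (16 * V) + 0 ^ 2 * CE) + 2 * C1 ^ 2 * 0))) := by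
      refine (tendsto_finsetSum _ fun s _ => ?_).const_mul Cη
      exact (((((H.hlim.pow 2).mul_const CE).const_add _).const_mul _).const_add _).add
        (hA.const_mul _)
    exact (h1.add h2).congr fun n => (hRH n).symm
  have fin1 : ∀ τ : ℝ, 0 < τ → (4 - ε) / 3 * (3 * (∫ z, φ z * m z ^ 2) - τ) ≤
      (K - c0 ^ 2) * (∫ z, φ z * m z) + Cη * ∑ s ∈ N, (64 * δ ^ 2 * M ^ 2 * V +
        128 * L s * (ε ^ 2 * M ^ 2) * V) := by
    intro τ hτ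
    have h1 := low4 hU hm hp H hφ φ0 hτ
    have h2 := ge_of_tendsto lR (by
      filter_upwards [h1, main] with n hn1 hn2
      rw [← hP n] at hn1
      exact (mul_le_mul_of_nonneg_left hn1 (by linarith : 0 ≤ (4 - ε) / 3)).trans hn2)
    refine h2.trans (le_of_eq ?_)
    have h3 : ∑ s ∈ N, (64 * δ ^ 2 * M ^ 2 * V +
        4 * L s * (2 * ε ^ 2 * M ^ 2 * (16 * V) + 0 ^ 2 * CE) + 2 * C1 ^ 2 * 0) =
        ∑ s ∈ N, (64 * δ ^ 2 * M ^ 2 * V + 128 * L s * (ε ^ 2 * M ^ 2) * V) :=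
      Finset.sum_congr rfl fun s _ => by ring
    rw [h3]; ring
  have fin2 : (4 - ε) * (∫ z, φ z * m z ^ 2) ≤
      (K - c0 ^ 2) * (∫ z, φ z * m z) + Cη * ∑ s ∈ N, (64 * δ ^ 2 * M ^ 2 * V +
        128 * L s * (ε ^ 2 * M ^ 2) * V) := by
    refine le_of_forall_pos_le_add fun τ hτ => ?_
    have h1 := fin1 (τ * (3 / (4 - ε))) (by
      have : 0 < 4 - ε := by linarith
      positivity)
    have h2 : (4 - ε) / 3 * (τ * (3 / (4 - ε))) = τ := by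
      have : (4 - ε) ≠ 0 := by linarith
      field_simp
    have h3 : (4 - ε) / 3 * (3 * (∫ z, φ z * m z ^ 2) - τ * (3 / (4 - ε))) =
        (4 - ε) * (∫ z, φ z * m z ^ 2) - (4 - ε) / 3 * (τ * (3 / (4 - ε))) := by ring
    rw [h3, h2] at h1
    linarith
  -- comparison with the value at the centre
  have ci : ∀ {F : ℂ → ℝ}, ContinuousOn F U → Integrable (fun z => φ z * F z) := fun hF =>
    Pool.Agent.W311.RW.int_mul hU hφ hF
  have g1 : (m z₀ - ε) ^ 2 * V ≤ ∫ z, φ z * m z ^ 2 := by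
    rw [hV, ← integral_const_mul]
    refine integral_mono (iφ.const_mul _) (ci (hm.pow 2)) fun z => ?_
    show (m z₀ - ε) ^ 2 * φ z ≤ φ z * m z ^ 2
    by_cases hz : z ∈ tsupport φ
    · have h1 := (abs_le.1 (sφ z hz).2.1).1
      have h2 : (m z₀ - ε) ^ 2 ≤ m z ^ 2 := pow_le_pow_left₀ (by linarith) (by linarith) 2
      have h3 := mul_le_mul_of_nonneg_right h2 (φ0 z)
      linarith
    · rw [image_eq_zero_of_notMem_tsupport hz]; simp
  have g2 : ∫ z, φ z * m z ≤ (m z₀ + ε) * V := by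
    rw [hV, ← integral_const_mul]
    refine integral_mono (ci hm) (iφ.const_mul _) fun z => ?_
    show φ z * m z ≤ (m z₀ + ε) * φ z
    by_cases hz : z ∈ tsupport φ
    · have h1 := (abs_le.1 (sφ z hz).2.1).2
      have h3 := mul_le_mul_of_nonneg_right (show m z ≤ m z₀ + ε by linarith) (φ0 z)
      linarith
    · rw [image_eq_zero_of_notMem_tsupport hz]; simp
  have g3 : ∑ s ∈ N, (64 * δ ^ 2 * M ^ 2 * V + 128 * L s * (ε ^ 2 * M ^ 2) * V) =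
      (∑ s ∈ N, (64 * δ ^ 2 * M ^ 2 + 128 * L s * (ε ^ 2 * M ^ 2))) * V := by
    rw [Finset.sum_mul]
    exact Finset.sum_congr rfl fun s _ => by ring
  rw [g3] at fin2
  have g4 := mul_le_mul_of_nonneg_left g1 (by linarith : 0 ≤ 4 - ε)
  have g5 := mul_le_mul_of_nonneg_left g2 hKc
  refine le_of_mul_le_mul_right ?_ hV0
  linarith

end

end Pool.Agent.Helper39.BW
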