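import Pool.Agent.Helper39.BW.Core4

/-!
Bounded quantum ergodic eigenfunctions: the product of the extreme values.
-/

set_option autoImplicit false
open MeasureTheory Filter Topology Complex Set ProbabilityTheory
open scoped Real ContDiff

namespace Pool.Agent.Helper39.BW

open Pool.Agent.W745.RW Pool.Agent.TH294.RS Pool.Agent.TH294.RG

noncomputable section

variable {U : Set ℂ} {a : ℂ → ℝ} {h : ℕ → ℝ} {u : ℕ → ℂ → ℝ} {M : ℝ} {m : ℂ → ℝ}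
  {ν : Kernel ℂ ℝ}

lemma lim_le {F G : ℝ → ℝ} (hF : Continuous F) (hG : Continuous G) {b : ℝ} (hb : 0 < b)
    (h : ∀ x, 0 < x → x < b → F x ≤ G x) : F 0 ≤ G 0 := by
  have h1 : Tendsto F (𝓝[>] 0) (𝓝 (F 0)) := (hF.tendsto 0).mono_left nhdsWithin_le_nhds
  have h2 : Tendsto G (𝓝[>] 0) (𝓝 (G 0)) := (hG.tendsto 0).mono_left nhdsWithin_le_nhds
  refine le_of_tendsto_of_tendsto h1 h2 ?_
  have h3 : Ioo (0 : ℝ) b ∈ 𝓝[>] (0 : ℝ) := Ioo_mem_nhdsGT hb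
  filter_upwards [h3] with x hx
  exact h x hx.1 hx.2

/-- **The product of the extreme values** -/
theorem core_all [IsMarkovKernel ν] (hU : IsOpen U) (hUf : volume U ≠ ⊤)
    (H : RawG U a h u (MM m ea ν)) (hm : ContinuousOn m U)
    (hp : ∀ᵐ z ∂(volume.restrict U), par ea (ν z) = 0)
    (hM0 : 0 ≤ M) (hM : ∀ n, ∀ z ∈ U, |u n z| ≤ M) {α β : ℝ} (hα : 0 ≤ α) (hβ : 0 ≤ β)
    (hA : Tendsto (fun n => volume.real (Bad U u α β n)) atTop (𝓝 0))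
    {z₀ : ℂ} (hz₀ : z₀ ∈ U) (hm0 : 0 < m z₀) : 4 * m z₀ ≤ α * β := by
  -- first limit
  have s1 : ∀ η : ℝ, 0 < η → ∃ N : Finset (ℝ × ℂ), ∀ δ : ℝ, 0 < δ → 4 * m z₀ ^ 2 ≤
      ((1 + η) ^ 3 * ((α + β) / 2 + |(β - α) / 2| * δ) ^ 2 - ((β - α) / 2) ^ 2) * m z₀ +
      (1 + η) ^ 2 * (1 + η⁻¹) * M ^ 2 * ∑ s ∈ N, 64 * δ ^ 2 * M ^ 2 := by
    intro η hη
    obtain ⟨N, hN1, hN⟩ := net hη
    refine ⟨N, fun δ hδ => ?_⟩
    have hnodes : ∀ s : ℝ × ℂ, ∃ (S : Finset ℤ) (c : ℤ → ℝ) (y : ℤ → ℂ), s ∈ N →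
        (∑ k ∈ S, |c k| ≤ 1 ∧ |s.1 - ∑ k ∈ S, c k| ≤ δ ∧
          ∀ ξ : ℂ, ‖ξ‖ ≤ 1 → ‖mu s.1 s.2 S c y ξ‖ ≤ δ) := by
      intro s
      by_cases hs : s ∈ N
      · obtain ⟨S, c, y, h1⟩ := nodes2 (hN1 s hs) hδ
        exact ⟨S, c, y, fun _ => h1⟩
      · exact ⟨∅, fun _ => 0, fun _ => 0, fun h => absurd h hs⟩
    choose S c y hscy using hnodes
    have key := fun (ε : ℝ) (hε : 0 < ε) (hε1 : ε < min 1 (m z₀)) =>
      core_small hU hUf H hm hp hM0 hM hα hβ hA hz₀ hη hN (S := S) (c := c) (y := y) hδ.le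
        (fun s hs => (hscy s hs).1) (fun s hs => (hscy s hs).2.1)
        (fun s hs => (hscy s hs).2.2) hε (hε1.trans_le (min_le_left _ _))
        (hε1.trans_le (min_le_right _ _))
    have l := lim_le (F := fun ε => (4 - ε) * (m z₀ - ε) ^ 2) (G := fun ε =>
      ((1 + η) ^ 3 * ((α + β) / 2 + |(β - α) / 2| * δ) ^ 2 - ((β - α) / 2) ^ 2) * (m z₀ + ε) +
      (1 + η) ^ 2 * (1 + η⁻¹) * M ^ 2 * ∑ s ∈ N, (64 * δ ^ 2 * M ^ 2 +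
        128 * (‖s.2‖ + ∑ k ∈ S s, |c s k| * ‖y s k‖) ^ 2 * (ε ^ 2 * M ^ 2)))
      (by fun_prop) (by fun_prop) (lt_min one_pos hm0) key
    simpa using l
  -- second limit
  have s2 : ∀ η : ℝ, 0 < η → 4 * m z₀ ^ 2 ≤
      ((1 + η) ^ 3 * ((α + β) / 2) ^ 2 - ((β - α) / 2) ^ 2) * m z₀ := by
    intro η hη
    obtain ⟨N, hN⟩ := s1 η hη
    have l := lim_le (F := fun _ => 4 * m z₀ ^ 2) (G := fun δ =>
      ((1 + η) ^ 3 * ((α + β) / 2 + |(β - α) / 2| * δ) ^ 2 - ((β - α) / 2) ^ 2) * m z₀ +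
      (1 + η) ^ 2 * (1 + η⁻¹) * M ^ 2 * ∑ s ∈ N, 64 * δ ^ 2 * M ^ 2)
      (by fun_prop) (by fun_prop) one_pos (fun δ hδ _ => hN δ hδ)
    simpa using l
  -- third limit
  have s3 := lim_le (F := fun _ => 4 * m z₀ ^ 2) (G := fun η =>
      ((1 + η) ^ 3 * ((α + β) / 2) ^ 2 - ((β - α) / 2) ^ 2) * m z₀)
      (by fun_prop) (by fun_prop) one_pos (fun η hη _ => s2 η hη)
  have s4 : 4 * m z₀ ^ 2 ≤ (α * β) * m z₀ := by
    refine s3.trans (le_of_eq ?_)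
    ring
  have s5 : (4 * m z₀) * m z₀ ≤ (α * β) * m z₀ := by nlinarith
  exact le_of_mul_le_mul_right s5 hm0

end

end Pool.Agent.Helper39.BW
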