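import Pool.Agent.Helper39.BW.Samp

/-!
The sampling formula for linear functionals of the first jet of a function with spectrum in the
unit disc.
-/

set_option autoImplicit false
open MeasureTheory Filter Topology Complex Set
open scoped Real

namespace Pool.Agent.Helper39.BW

noncomputable section

/-- the multiplier -/
def mu (w0 : ℝ) (w : ℂ) (S : Finset ℤ) (c : ℤ → ℝ) (y : ℤ → ℂ) (ξ : ℂ) : ℂ :=
  (w0 : ℂ) + ((inner ℝ w ξ : ℝ) : ℂ) * I -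
    ∑ k ∈ S, (c k : ℂ) * cexp (((inner ℝ (y k) ξ : ℝ) : ℂ) * I)

lemma exp_lip (a b : ℝ) : ‖cexp ((a : ℂ) * I) - cexp ((b : ℂ) * I)‖ ≤ |a - b| := by
  have h1 : cexp ((a : ℂ) * I) - cexp ((b : ℂ) * I) =
      cexp ((b : ℂ) * I) * (cexp (I * ((a - b : ℝ) : ℂ)) - 1) := by
    rw [mul_sub, ← Complex.exp_add, mul_one]
    congr 2
    push_cast; ring
  rw [h1, norm_mul, norm_exp_ofReal_mul_I, one_mul]
  exact Real.norm_exp_I_mul_ofReal_sub_one_le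

lemma mu_lip (w0 : ℝ) (w : ℂ) (S : Finset ℤ) (c : ℤ → ℝ) (y : ℤ → ℂ) (ξ η : ℂ) :
    ‖mu w0 w S c y ξ - mu w0 w S c y η‖ ≤ (‖w‖ + ∑ k ∈ S, |c k| * ‖y k‖) * ‖ξ - η‖ := by
  have e : mu w0 w S c y ξ - mu w0 w S c y η = ((inner ℝ w (ξ - η) : ℝ) : ℂ) * I -
      ∑ k ∈ S, (c k : ℂ) * (cexp (((inner ℝ (y k) ξ : ℝ) : ℂ) * I) -
        cexp (((inner ℝ (y k) η : ℝ) : ℂ) * I)) := by
    unfold mu
    simp only [mul_sub, Finset.sum_sub_distrib]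
    rw [inner_sub_right]
    push_cast; ring
  rw [e, add_mul, Finset.sum_mul]
  refine (norm_sub_le _ _).trans (add_le_add ?_ ?_)
  · rw [norm_mul, norm_I, mul_one, norm_real]
    exact norm_inner_le_norm _ _
  · refine (norm_sum_le _ _).trans (Finset.sum_le_sum fun k _ => ?_)
    rw [norm_mul, norm_real, Real.norm_eq_abs, mul_assoc]
    refine mul_le_mul_of_nonneg_left ?_ (abs_nonneg _)
    refine (exp_lip _ _).trans ?_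
    rw [← inner_sub_right, ← Real.norm_eq_abs]
    exact norm_inner_le_norm _ _

/-- from the unit disc to the plane -/
lemma mu_all {w0 : ℝ} {w : ℂ} {S : Finset ℤ} {c : ℤ → ℝ} {y : ℤ → ℂ} {δ : ℝ}
    (h : ∀ ξ : ℂ, ‖ξ‖ ≤ 1 → ‖mu w0 w S c y ξ‖ ≤ δ) (ξ : ℂ) :
    ‖mu w0 w S c y ξ‖ ^ 2 ≤ 2 * δ ^ 2 +
      2 * (‖w‖ + ∑ k ∈ S, |c k| * ‖y k‖) ^ 2 * (1 - ‖ξ‖ ^ 2) ^ 2 := by
  set L : ℝ := ‖w‖ + ∑ k ∈ S, |c k| * ‖y k‖ with hL
  have L0 : 0 ≤ L := add_nonneg (norm_nonneg _)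
    (Finset.sum_nonneg fun k _ => mul_nonneg (abs_nonneg _) (norm_nonneg _))
  have key : ∃ η : ℂ, ‖η‖ ≤ 1 ∧ ‖ξ - η‖ ≤ |1 - ‖ξ‖ ^ 2| := by
    by_cases h1 : ‖ξ‖ ≤ 1
    · exact ⟨ξ, h1, by rw [sub_self, norm_zero]; exact abs_nonneg _⟩
    · push Not at h1
      have h2 : 0 < ‖ξ‖ := by linarith
      refine ⟨(‖ξ‖⁻¹ : ℝ) • ξ, ?_, ?_⟩
      · rw [norm_smul, norm_inv, norm_norm, inv_mul_cancel₀ h2.ne']
      · have e : ξ - (‖ξ‖⁻¹ : ℝ) • ξ = (1 - ‖ξ‖⁻¹ : ℝ) • ξ := by rw [sub_smul, one_smul]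
        have h3 : ‖ξ‖⁻¹ ≤ 1 := inv_le_one_of_one_le₀ h1.le
        rw [e, norm_smul, Real.norm_eq_abs, abs_of_nonneg (by linarith), sub_mul, one_mul,
          inv_mul_cancel₀ h2.ne', abs_of_neg (by nlinarith)]
        nlinarith
  obtain ⟨η, h1, h2⟩ := key
  have h3 : ‖mu w0 w S c y ξ‖ ≤ δ + L * |1 - ‖ξ‖ ^ 2| := by
    have e : mu w0 w S c y ξ = mu w0 w S c y η + (mu w0 w S c y ξ - mu w0 w S c y η) := by ring
    rw [e]
    refine (norm_add_le _ _).trans (add_le_add (h η h1) ?_)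
    exact (mu_lip w0 w S c y ξ η).trans (mul_le_mul_of_nonneg_left h2 L0)
  have h4 : ‖mu w0 w S c y ξ‖ ^ 2 ≤ (δ + L * |1 - ‖ξ‖ ^ 2|) ^ 2 :=
    pow_le_pow_left₀ (norm_nonneg _) h3 2
  refine h4.trans ?_
  have h5 : (L * |1 - ‖ξ‖ ^ 2|) ^ 2 = L ^ 2 * (1 - ‖ξ‖ ^ 2) ^ 2 := by rw [mul_pow, sq_abs]
  nlinarith [sq_nonneg (δ - L * |1 - ‖ξ‖ ^ 2|)]

/-- **Nodes for linear functionals of the first jet** -/
theorem nodes2 {w0 : ℝ} {w : ℂ} (h1 : w0 ^ 2 + ‖w‖ ^ 2 = 1) {δ : ℝ} (hδ : 0 < δ) :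
    ∃ (S : Finset ℤ) (c : ℤ → ℝ) (y : ℤ → ℂ), ∑ k ∈ S, |c k| ≤ 1 ∧
      |w0 - ∑ k ∈ S, c k| ≤ δ ∧ ∀ ξ : ℂ, ‖ξ‖ ≤ 1 → ‖mu w0 w S c y ξ‖ ≤ δ := by
  by_cases hw : w = 0
  · refine ⟨{0}, fun _ => w0, fun _ => 0, ?_, ?_, fun ξ _ => ?_⟩
    · rw [Finset.sum_singleton]
      rw [hw, norm_zero] at h1
      have : |w0| ^ 2 = 1 := by rw [sq_abs]; linarith
      nlinarith [abs_nonneg w0]
    · rw [Finset.sum_singleton, sub_self, abs_zero]; exact hδ.le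
    · unfold mu
      rw [Finset.sum_singleton, hw]
      simp [hδ.le]
  · have hw0 : 0 < ‖w‖ := norm_pos_iff.2 hw
    have hb : -1 ≤ w0 ∧ w0 ≤ 1 := by
      constructor <;> nlinarith [sq_nonneg ‖w‖]
    have hc : Real.cos (Real.arccos w0) = w0 := Real.cos_arccos hb.1 hb.2
    have hs : Real.sin (Real.arccos w0) = ‖w‖ := by
      rw [Real.sin_arccos]
      have : 1 - w0 ^ 2 = ‖w‖ ^ 2 := by linarith
      rw [this, Real.sqrt_sq hw0.le]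
    obtain ⟨S, c, x, hS, hx⟩ := nodes1 (α := Real.arccos w0) (by rw [hs]; exact hw0.ne') hδ
    rw [hc, hs] at hx
    have key : ∀ ξ : ℂ, ‖ξ‖ ≤ 1 →
        ‖mu w0 w S c (fun k => (x k * ‖w‖⁻¹ : ℝ) • w) ξ‖ ≤ δ := by
      intro ξ hξ
      have hin : |(inner ℝ w ξ : ℝ)| ≤ ‖w‖ := by
        rw [← Real.norm_eq_abs]
        refine (norm_inner_le_norm _ _).trans ?_
        nlinarith
      have hs1 : ‖w‖⁻¹ * (inner ℝ w ξ : ℝ) ∈ Icc (-1 : ℝ) 1 := by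
        rw [mem_Icc, ← abs_le, abs_mul, abs_inv, abs_norm, inv_mul_le_iff₀ hw0, mul_one]
        exact hin
      have h2 := hx _ hs1
      have e : mu w0 w S c (fun k => (x k * ‖w‖⁻¹ : ℝ) • w) ξ =
          ((w0 : ℂ) + (((‖w‖⁻¹ * (inner ℝ w ξ : ℝ)) * ‖w‖ : ℝ) : ℂ) * I) -
        ∑ k ∈ S, (c k : ℂ) * cexp (((x k * (‖w‖⁻¹ * (inner ℝ w ξ : ℝ)) : ℝ) : ℂ) * I) := by
        unfold mu
        congr 1
        · congr 3
          field_simp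
        · refine Finset.sum_congr rfl fun k _ => ?_
          rw [real_inner_smul_left]
          congr 4
          ring
      rw [e]; exact h2
    refine ⟨S, c, fun k => (x k * ‖w‖⁻¹ : ℝ) • w, hS, ?_, key⟩
    have h3 := key 0 (by simp)
    have e : mu w0 w S c (fun k => (x k * ‖w‖⁻¹ : ℝ) • w) 0 = ((w0 - ∑ k ∈ S, c k : ℝ) : ℂ) := by
      unfold mu
      simp
    rw [e, norm_real, Real.norm_eq_abs] at h3
    exact h3

end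

end Pool.Agent.Helper39.BW
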