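import Mathlib

/-!
An `L²` estimate for sampling operators by Plancherel's theorem.
-/

set_option autoImplicit false
open MeasureTheory Filter Topology Complex Set SchwartzMap LineDeriv FourierTransform
open scoped Real SchwartzMap

namespace Pool.Agent.Helper39.BW

noncomputable section

/-- the Fourier transform of a translate -/
lemma fourier_trans (f : 𝓢(ℂ, ℂ)) (a ξ : ℂ) :
    𝓕 (f.compSubConstCLM ℂ (-a)) ξ = cexp (((2 * π * inner ℝ a ξ : ℝ) : ℂ) * I) * 𝓕 f ξ := by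
  rw [fourier_coe, fourier_coe, Real.fourier_eq', Real.fourier_eq']
  have h1 : ∀ v : ℂ, cexp (((-2 * π * inner ℝ v ξ : ℝ) : ℂ) * I) • (f.compSubConstCLM ℂ (-a)) v =
      (fun v => cexp (((-2 * π * inner ℝ (v - a) ξ : ℝ) : ℂ) * I) • f v) (v + a) := by
    intro v
    simp only [compSubConstCLM_apply, sub_neg_eq_add, add_sub_cancel_right]
  simp_rw [h1]
  rw [integral_add_right_eq_self (μ := (volume : Measure ℂ))
    (fun v => cexp (((-2 * π * inner ℝ (v - a) ξ : ℝ) : ℂ) * I) • f v) a,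
    ← integral_const_mul]
  refine integral_congr_ae (ae_of_all _ fun v => ?_)
  simp only [smul_eq_mul]
  rw [← mul_assoc, ← Complex.exp_add]
  congr 2
  rw [inner_sub_left]
  push_cast; ring

/-- the Fourier transform of a line derivative -/
lemma fourier_ld (f : 𝓢(ℂ, ℂ)) (w ξ : ℂ) :
    𝓕 (∂_{w} f) ξ = ((2 * π * inner ℝ w ξ : ℝ) : ℂ) * I * 𝓕 f ξ := by
  rw [fourier_lineDerivOp_eq]
  have : (fun x : ℂ => (inner ℝ x w : ℝ)).HasTemperateGrowth := by fun_prop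
  rw [smul_apply, smulLeftCLM_apply_apply this, real_inner_comm]
  rw [Complex.real_smul, smul_eq_mul]
  push_cast; ring

/-- the sampling operator -/
def TS (f : 𝓢(ℂ, ℂ)) (w0 t : ℝ) (w : ℂ) (S : Finset ℤ) (c : ℤ → ℝ) (y : ℤ → ℂ) : 𝓢(ℂ, ℂ) :=
  (w0 : ℂ) • f + (t : ℂ) • (∂_{w} f) -
    ∑ k ∈ S, (c k : ℂ) • f.compSubConstCLM ℂ (-((t : ℂ) * y k))

/-- the Helmholtz operator -/
def HS (f : 𝓢(ℂ, ℂ)) (t : ℝ) : 𝓢(ℂ, ℂ) :=
  ((t : ℂ) ^ 2) • (∂_{(1 : ℂ)} (∂_{(1 : ℂ)} f) + ∂_{(I : ℂ)} (∂_{(I : ℂ)} f)) + f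

lemma fourier_HS (f : 𝓢(ℂ, ℂ)) (t : ℝ) (ξ : ℂ) :
    𝓕 (HS f t) ξ = ((1 - ‖((2 * π * t : ℝ) : ℂ) * ξ‖ ^ 2 : ℝ) : ℂ) * 𝓕 f ξ := by
  unfold HS
  rw [FourierTransform.fourier_add, FourierTransform.fourier_smul, FourierTransform.fourier_add,
    SchwartzMap.add_apply, SchwartzMap.smul_apply, SchwartzMap.add_apply, fourier_ld, fourier_ld,
    fourier_ld, fourier_ld]
  have h1 : (inner ℝ (1 : ℂ) ξ : ℝ) = ξ.re := by simp [Complex.inner]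
  have h2 : (inner ℝ (I : ℂ) ξ : ℝ) = ξ.im := by simp [Complex.inner]
  have h3 : ‖((2 * π * t : ℝ) : ℂ) * ξ‖ ^ 2 = (2 * π * t) ^ 2 * (ξ.re ^ 2 + ξ.im ^ 2) := by
    rw [norm_mul, mul_pow, norm_real, Real.norm_eq_abs, sq_abs, Complex.sq_norm,
      Complex.normSq_apply]
    ring
  rw [h1, h2, h3, smul_eq_mul]
  push_cast
  linear_combination ((t : ℂ) ^ 2 * ((2 * π * ξ.re) ^ 2 + (2 * π * ξ.im) ^ 2) * 𝓕 f ξ) * I_sq

lemma fourier_TS (f : 𝓢(ℂ, ℂ)) (w0 t : ℝ) (w : ℂ) (S : Finset ℤ) (c : ℤ → ℝ) (y : ℤ → ℂ)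
    (ξ : ℂ) :
    𝓕 (TS f w0 t w S c y) ξ = ((w0 : ℂ) +
      ((inner ℝ w (((2 * π * t : ℝ) : ℂ) * ξ) : ℝ) : ℂ) * I -
      ∑ k ∈ S, (c k : ℂ) * cexp (((inner ℝ (y k) (((2 * π * t : ℝ) : ℂ) * ξ) : ℝ) : ℂ) * I)) *
        𝓕 f ξ := by
  have hs : ∀ (r : ℝ) (a b : ℂ), (inner ℝ a ((r : ℂ) * b) : ℝ) = r * inner ℝ a b := by
    intro r a b
    have : (r : ℂ) * b = r • b := by rw [Complex.real_smul]
    rw [this, real_inner_smul_right]
  have hs' : ∀ (r : ℝ) (a b : ℂ), (inner ℝ ((r : ℂ) * a) b : ℝ) = r * inner ℝ a b := by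
    intro r a b
    have : (r : ℂ) * a = r • a := by rw [Complex.real_smul]
    rw [this, real_inner_smul_left]
  unfold TS
  rw [sub_eq_add_neg, ← Finset.sum_neg_distrib]
  have hsum : ∀ (T : Finset ℤ) (g : ℤ → 𝓢(ℂ, ℂ)), 𝓕 (∑ k ∈ T, g k) ξ = ∑ k ∈ T, 𝓕 (g k) ξ := by
    intro T g
    induction T using Finset.cons_induction with
    | empty =>
      have : (𝓕 (0 : 𝓢(ℂ, ℂ))) = 0 := by
        have h := FourierTransform.fourier_smul (E := 𝓢(ℂ, ℂ)) (F := 𝓢(ℂ, ℂ)) (0 : ℂ) (0 : 𝓢(ℂ, ℂ))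
        simpa using h
      simp [this]
    | cons a s ha ih =>
      rw [Finset.sum_cons, Finset.sum_cons, FourierTransform.fourier_add, SchwartzMap.add_apply, ih]
  rw [FourierTransform.fourier_add, FourierTransform.fourier_add, FourierTransform.fourier_smul,
    FourierTransform.fourier_smul, SchwartzMap.add_apply, SchwartzMap.add_apply,
    SchwartzMap.smul_apply, SchwartzMap.smul_apply, fourier_ld, hsum]
  have h1 : ∀ k ∈ S, 𝓕 (-((c k : ℂ) • f.compSubConstCLM ℂ (-((t : ℂ) * y k)))) ξ =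
      -((c k : ℂ) * cexp (((inner ℝ (y k) (((2 * π * t : ℝ) : ℂ) * ξ) : ℝ) : ℂ) * I)) * 𝓕 f ξ := by
    intro k _
    rw [← neg_smul, FourierTransform.fourier_smul, SchwartzMap.smul_apply, fourier_trans,
      smul_eq_mul, hs, hs']
    have : (2 * π * (t * inner ℝ (y k) ξ) : ℝ) = 2 * π * t * inner ℝ (y k) ξ := by ring
    rw [this]
    ring
  rw [Finset.sum_congr rfl h1, ← Finset.sum_mul, Finset.sum_neg_distrib, hs]
  simp only [smul_eq_mul]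
  push_cast
  ring

/-- **The `L²` estimate** -/
theorem planch (f : 𝓢(ℂ, ℂ)) (w0 t : ℝ) (w : ℂ) (S : Finset ℤ) (c : ℤ → ℝ) (y : ℤ → ℂ)
    (A B : ℝ) (hm : ∀ ξ : ℂ, ‖(w0 : ℂ) + ((inner ℝ w ξ : ℝ) : ℂ) * I -
      ∑ k ∈ S, (c k : ℂ) * cexp (((inner ℝ (y k) ξ : ℝ) : ℂ) * I)‖ ^ 2 ≤
        A + B * (1 - ‖ξ‖ ^ 2) ^ 2) :
    ∫ z, ‖TS f w0 t w S c y z‖ ^ 2 ≤ A * (∫ z, ‖f z‖ ^ 2) + B * ∫ z, ‖HS f t z‖ ^ 2 := by
  have i2 : ∀ g : 𝓢(ℂ, ℂ), Integrable (fun z => ‖g z‖ ^ 2) := fun g => by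
    have := (g.memLp 2 volume).integrable_norm_pow (by norm_num)
    simpa using this
  rw [← integral_norm_sq_fourier, ← integral_norm_sq_fourier f, ← integral_norm_sq_fourier (HS f t),
    ← integral_const_mul, ← integral_const_mul,
    ← integral_add ((i2 _).const_mul A) ((i2 _).const_mul B)]
  refine integral_mono (i2 _) (((i2 _).const_mul A).add ((i2 _).const_mul B)) fun ξ => ?_
  show ‖𝓕 (TS f w0 t w S c y) ξ‖ ^ 2 ≤ A * ‖𝓕 f ξ‖ ^ 2 + B * ‖𝓕 (HS f t) ξ‖ ^ 2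
  rw [fourier_TS, fourier_HS, norm_mul, norm_mul, mul_pow, mul_pow, norm_real, Real.norm_eq_abs,
    sq_abs]
  have h1 := mul_le_mul_of_nonneg_right (hm (((2 * π * t : ℝ) : ℂ) * ξ))
    (by positivity : 0 ≤ ‖𝓕 f ξ‖ ^ 2)
  refine h1.trans (le_of_eq ?_)
  ring

end

end Pool.Agent.Helper39.BW
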