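import Pool.Agent.Helper39.BW.Nodes
import Pool.Agent.Helper39.BW.Planch
import Pool.Agent.W745.RW.Stm

/-!
The `L²` estimate for sampling operators on real test functions.
-/

set_option autoImplicit false
open MeasureTheory Filter Topology Complex Set SchwartzMap LineDeriv FourierTransform
open scoped Real SchwartzMap ContDiff

namespace Pool.Agent.Helper39.BW

open Pool.Agent.W745.RW

noncomputable section

/-- the Schwartz function of a real test function -/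
def SS (v : ℂ → ℝ) (h1 : HasCompactSupport v) (h2 : ContDiff ℝ ∞ v) : 𝓢(ℂ, ℂ) :=
  HasCompactSupport.toSchwartzMap (f := fun z => (v z : ℂ))
    (h1.comp_left (g := fun x : ℝ => (x : ℂ)) ofReal_zero) (ofRealCLM.contDiff.comp h2)

variable {v : ℂ → ℝ} (h1 : HasCompactSupport v) (h2 : ContDiff ℝ ∞ v)

lemma SS_coe : ⇑(SS v h1 h2) = fun z => (v z : ℂ) := rfl

lemma fd_re {g : ℂ → ℝ} {z : ℂ} (hg : DifferentiableAt ℝ g z) (w : ℂ) :
    fderiv ℝ (fun z => (g z : ℂ)) z w = ((fderiv ℝ g z w : ℝ) : ℂ) := by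
  have h : HasFDerivAt (fun z => (g z : ℂ)) (ofRealCLM.comp (fderiv ℝ g z)) z :=
    ofRealCLM.hasFDerivAt.comp z hg.hasFDerivAt
  rw [h.fderiv]; rfl

lemma ld_SS (w : ℂ) : ⇑(∂_{w} (SS v h1 h2) : 𝓢(ℂ, ℂ)) =
    fun z => ((fderiv ℝ v z w : ℝ) : ℂ) := by
  funext z
  rw [lineDerivOp_apply_eq_fderiv, SS_coe]
  exact fd_re (h2.differentiable (by simp) z) w

lemma cd_fd {v : ℂ → ℝ} (h2 : ContDiff ℝ ∞ v) (w : ℂ) : ContDiff ℝ ∞ (fun z => fderiv ℝ v z w) :=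
  (h2.fderiv_right (by simp)).clm_apply contDiff_const

lemma ld2_SS (w : ℂ) : ⇑(∂_{w} (∂_{w} (SS v h1 h2) : 𝓢(ℂ, ℂ)) : 𝓢(ℂ, ℂ)) =
    fun z => ((fderiv ℝ (fun x => fderiv ℝ v x w) z w : ℝ) : ℂ) := by
  funext z
  rw [lineDerivOp_apply_eq_fderiv, ld_SS]
  exact fd_re ((cd_fd h2 w).differentiable (by simp) z) w

lemma HS_SS (t : ℝ) (z : ℂ) : HS (SS v h1 h2) t z = ((t ^ 2 * lap v z + v z : ℝ) : ℂ) := by
  unfold HS
  rw [add_apply, smul_apply, add_apply, ld2_SS, ld2_SS, SS_coe, smul_eq_mul]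
  unfold lap dx dy
  push_cast
  rfl

lemma TS_SS (w0 t : ℝ) (w : ℂ) (S : Finset ℤ) (c : ℤ → ℝ) (y : ℤ → ℂ) (z : ℂ) :
    TS (SS v h1 h2) w0 t w S c y z =
      ((w0 * v z + t * fderiv ℝ v z w - ∑ k ∈ S, c k * v (z + (t : ℂ) * y k) : ℝ) : ℂ) := by
  have hsum : ∀ (T : Finset ℤ) (g : ℤ → 𝓢(ℂ, ℂ)), (∑ k ∈ T, g k) z = ∑ k ∈ T, g k z := by
    intro T g
    induction T using Finset.cons_induction with
    | empty => simp
    | cons a s ha ih => rw [Finset.sum_cons, Finset.sum_cons, add_apply, ih]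
  unfold TS
  rw [sub_apply, add_apply, smul_apply, smul_apply, hsum, ld_SS, SS_coe]
  have : ∀ k ∈ S, ((c k : ℂ) • (SS v h1 h2).compSubConstCLM ℂ (-((t : ℂ) * y k))) z =
      ((c k * v (z + (t : ℂ) * y k) : ℝ) : ℂ) := by
    intro k _
    rw [smul_apply, compSubConstCLM_apply, SS_coe, sub_neg_eq_add, smul_eq_mul]
    push_cast; rfl
  rw [Finset.sum_congr rfl this]
  simp only [smul_eq_mul]
  push_cast
  rfl

lemma int_sq (g : 𝓢(ℂ, ℂ)) {G : ℂ → ℝ} (hG : ∀ z, g z = (G z : ℂ)) :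
    Integrable (fun z => G z ^ 2) := by
  have h := (g.memLp 2 volume).integrable_norm_pow (by norm_num)
  refine h.congr (ae_of_all _ fun z => ?_)
  simp only [ENNReal.toReal_ofNat, hG, norm_real, Real.norm_eq_abs]
  norm_num

/-- integrability of the square of the sampling error -/
lemma TS_int (w0 t : ℝ) (w : ℂ) (S : Finset ℤ) (c : ℤ → ℝ) (y : ℤ → ℂ)
    {v : ℂ → ℝ} (h1 : HasCompactSupport v) (h2 : ContDiff ℝ ∞ v) :
    Integrable (fun z => (w0 * v z + t * fderiv ℝ v z w -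
      ∑ k ∈ S, c k * v (z + (t : ℂ) * y k)) ^ 2) :=
  int_sq (TS (SS v h1 h2) w0 t w S c y) (TS_SS h1 h2 w0 t w S c y)

/-- **The `L²` estimate, real form** -/
theorem planchR {w0 : ℝ} {w : ℂ} {S : Finset ℤ} {c : ℤ → ℝ} {y : ℤ → ℂ} {δ : ℝ}
    (hmu : ∀ ξ : ℂ, ‖ξ‖ ≤ 1 → ‖mu w0 w S c y ξ‖ ≤ δ) (t : ℝ)
    {v : ℂ → ℝ} (h1 : HasCompactSupport v) (h2 : ContDiff ℝ ∞ v) :
    ∫ z, (w0 * v z + t * fderiv ℝ v z w - ∑ k ∈ S, c k * v (z + (t : ℂ) * y k)) ^ 2 ≤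
      2 * δ ^ 2 * (∫ z, v z ^ 2) +
        2 * (‖w‖ + ∑ k ∈ S, |c k| * ‖y k‖) ^ 2 * ∫ z, (t ^ 2 * lap v z + v z) ^ 2 := by
  have key := planch (SS v h1 h2) w0 t w S c y (2 * δ ^ 2)
    (2 * (‖w‖ + ∑ k ∈ S, |c k| * ‖y k‖) ^ 2) (fun ξ => mu_all hmu ξ)
  simp only [TS_SS, HS_SS, SS_coe, norm_real, Real.norm_eq_abs, sq_abs] at key
  exact key

end

end Pool.Agent.Helper39.BW
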