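import Mathlib

/-!
The sampling formula of Bernstein, Szegő and M. Riesz: on `[-1, 1]` the function
`cos α + i s sin α` is the Fourier transform of an atomic measure of total variation one.
-/

set_option autoImplicit false
open MeasureTheory Filter Topology Complex Set
open scoped Real

namespace Pool.Agent.Helper39.BW

noncomputable section

/-- the function whose Fourier coefficients are computed -/
def gs (α : ℝ) (s : ℝ) : ℂ :=
  cexp (-((α * s : ℝ) : ℂ) * I) * ((Real.cos α : ℂ) + ((s * Real.sin α : ℝ) : ℂ) * I)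

lemma gs_cont (α : ℝ) : Continuous (gs α) := by
  unfold gs; fun_prop

lemma gs_one (α : ℝ) : gs α 1 = 1 := by
  unfold gs
  have : ((Real.cos α : ℂ) + ((1 * Real.sin α : ℝ) : ℂ) * I) = cexp ((α : ℂ) * I) := by
    rw [Complex.exp_mul_I]; push_cast; ring
  rw [this, ← Complex.exp_add]
  have e : -((α * 1 : ℝ) : ℂ) * I + (α : ℂ) * I = 0 := by push_cast; ring
  rw [e, Complex.exp_zero]

lemma gs_neg_one (α : ℝ) : gs α (-1) = 1 := by
  unfold gs
  have : ((Real.cos α : ℂ) + ((-1 * Real.sin α : ℝ) : ℂ) * I) = cexp (-((α : ℂ) * I)) := by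
    rw [← neg_mul, Complex.exp_mul_I, Complex.cos_neg, Complex.sin_neg]; push_cast; ring
  rw [this, ← Complex.exp_add]
  have e : -((α * -1 : ℝ) : ℂ) * I + -((α : ℂ) * I) = 0 := by push_cast; ring
  rw [e, Complex.exp_zero]

instance : Fact ((0 : ℝ) < 2) := ⟨by norm_num⟩

/-- the periodic extension -/
def GS (α : ℝ) : C(AddCircle (2 : ℝ), ℂ) where
  toFun := AddCircle.liftIco 2 (-1) (gs α)
  continuous_toFun := by
    refine AddCircle.liftIco_continuous ?_ (gs_cont α).continuousOn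
    rw [gs_neg_one]
    have : (-1 : ℝ) + 2 = 1 := by norm_num
    rw [this, gs_one]

lemma GS_apply (α : ℝ) {s : ℝ} (h : s ∈ Icc (-1 : ℝ) 1) : GS α (s : AddCircle (2 : ℝ)) = gs α s := by
  rcases eq_or_lt_of_le h.2 with h1 | h1
  · have e : ((1 : ℝ) : AddCircle (2 : ℝ)) = ((-1 : ℝ) : AddCircle (2 : ℝ)) := by
      have h2 := AddCircle.coe_add_period (2 : ℝ) (-1)
      rw [← h2]; norm_num
    rw [h1, gs_one, e]
    have h3 : GS α ((-1 : ℝ) : AddCircle (2 : ℝ)) = gs α (-1) :=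
      AddCircle.liftIco_coe_apply (p := 2) (a := -1) (f := gs α) (x := -1)
        (by constructor <;> norm_num)
    rw [h3, gs_neg_one]
  · exact AddCircle.liftIco_coe_apply (p := 2) (a := -1) (f := gs α) ⟨h.1, by linarith⟩

lemma sin_add_int (α : ℝ) (n : ℤ) : Real.sin (α + n * π) = (-1) ^ n * Real.sin α := by
  exact_mod_cast Real.sin_add_int_mul_pi α n

lemma cos_add_int (α : ℝ) (n : ℤ) : Real.cos (α + n * π) = (-1) ^ n * Real.cos α := by
  exact_mod_cast Real.cos_add_int_mul_pi α n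

lemma xn_ne {α : ℝ} (h : Real.sin α ≠ 0) (n : ℤ) : α + n * π ≠ 0 := by
  intro h0
  have := sin_add_int α n
  rw [h0, Real.sin_zero] at this
  rcases mul_eq_zero.1 this.symm with h1 | h1
  · exact absurd h1 (zpow_ne_zero _ (by norm_num))
  · exact h h1

/-- the Fourier coefficient integral -/
lemma int_gs {α : ℝ} (h : Real.sin α ≠ 0) (n : ℤ) :
    ∫ s in (-1 : ℝ)..1, cexp (-((s * (n * π) : ℝ) : ℂ) * I) * gs α s =
      ((2 * ((-1) ^ n * (Real.sin α ^ 2 / (α + n * π) ^ 2)) : ℝ) : ℂ) := by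
  set x : ℝ := α + n * π with hx
  have x0 : x ≠ 0 := xn_ne h n
  have xc : (x : ℂ) ≠ 0 := by exact_mod_cast x0
  set c : ℝ := Real.cos α
  set d : ℝ := Real.sin α
  have e1 : ∀ s : ℝ, cexp (-((s * (n * π) : ℝ) : ℂ) * I) * gs α s =
      cexp (-((x * s : ℝ) : ℂ) * I) * ((c : ℂ) + ((s * d : ℝ) : ℂ) * I) := by
    intro s
    unfold gs
    rw [← mul_assoc, ← Complex.exp_add]
    congr 2
    rw [hx]; push_cast; ring
  simp only [e1]
  -- the antiderivative
  have hd : ∀ s : ℝ, HasDerivAt (fun s : ℝ => cexp (-((x * s : ℝ) : ℂ) * I) *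
      (((d + x * c) / x ^ 2 : ℝ) * I - ((d * s / x : ℝ) : ℂ)))
      (cexp (-((x * s : ℝ) : ℂ) * I) * ((c : ℂ) + ((s * d : ℝ) : ℂ) * I)) s := by
    intro s
    have h1 : HasDerivAt (fun s : ℝ => -((x * s : ℝ) : ℂ) * I) (-((x : ℝ) : ℂ) * I) s := by
      have h2 : HasDerivAt (fun s : ℝ => x * s) x s := by
        simpa using (hasDerivAt_id s).const_mul x
      exact (h2.ofReal_comp.neg).mul_const I
    have h3 : HasDerivAt (fun s : ℝ => (((d + x * c) / x ^ 2 : ℝ) : ℂ) * I -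
        ((d * s / x : ℝ) : ℂ)) (-((d / x : ℝ) : ℂ)) s := by
      have h4 : HasDerivAt (fun s : ℝ => d * s / x) (d / x) s := by
        have := ((hasDerivAt_id s).const_mul d).div_const x
        simpa using this
      have := (h4.ofReal_comp).const_sub ((((d + x * c) / x ^ 2 : ℝ) : ℂ) * I)
      exact this
    have h5 : HasDerivAt (fun s : ℝ => cexp (-((x * s : ℝ) : ℂ) * I) *
        (((d + x * c) / x ^ 2 : ℝ) * I - ((d * s / x : ℝ) : ℂ))) _ s := h1.cexp.mul h3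
    refine h5.congr_deriv ?_
    have h6 : (-(x : ℂ) * I) * (((d + x * c) / x ^ 2 : ℝ) * I - ((d * s / x : ℝ) : ℂ)) +
        (-((d / x : ℝ) : ℂ)) = (c : ℂ) + ((s * d : ℝ) : ℂ) * I := by
      push_cast
      field_simp
      linear_combination (-((d : ℂ) + x * c)) * I_sq
    rw [← h6]
    ring
  rw [intervalIntegral.integral_eq_sub_of_hasDerivAt (fun s _ => hd s)
    (by apply Continuous.intervalIntegrable; fun_prop)]
  have s1 : Real.sin x = (-1) ^ n * d := sin_add_int α n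
  have c1 : Real.cos x = (-1) ^ n * c := cos_add_int α n
  have e2 : cexp (-((x * 1 : ℝ) : ℂ) * I) = (Real.cos x : ℂ) - (Real.sin x : ℂ) * I := by
    rw [mul_one, ← ofReal_neg, Complex.exp_mul_I, ← ofReal_cos, ← ofReal_sin, Real.cos_neg,
      Real.sin_neg]; push_cast; ring
  have e3 : cexp (-((x * -1 : ℝ) : ℂ) * I) = (Real.cos x : ℂ) + (Real.sin x : ℂ) * I := by
    have : -((x * -1 : ℝ) : ℂ) = ((x : ℝ) : ℂ) := by push_cast; ring
    rw [this, Complex.exp_mul_I, ← ofReal_cos, ← ofReal_sin]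
  rw [e2, e3, s1, c1]
  obtain ⟨p, hp⟩ : ∃ p : ℝ, p = (-1) ^ n := ⟨_, rfl⟩
  rw [← hp]
  push_cast
  field_simp
  linear_combination (-2 * (p : ℂ) * d * (d + c * x)) * I_sq

lemma coeff_GS {α : ℝ} (h : Real.sin α ≠ 0) (n : ℤ) :
    fourierCoeff (GS α) n = (((-1) ^ n * (Real.sin α ^ 2 / (α + n * π) ^ 2) : ℝ) : ℂ) := by
  rw [fourierCoeff_eq_intervalIntegral (GS α) n (-1)]
  have e0 : (-1 : ℝ) + 2 = 1 := by norm_num
  rw [e0]
  have e1 : ∫ s in (-1 : ℝ)..1, fourier (-n) (s : AddCircle (2 : ℝ)) • GS α (s : AddCircle (2 : ℝ)) =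
      ∫ s in (-1 : ℝ)..1, cexp (-((s * (n * π) : ℝ) : ℂ) * I) * gs α s := by
    refine intervalIntegral.integral_congr fun s hs => ?_
    rw [uIcc_of_le (by norm_num)] at hs
    show fourier (-n) (s : AddCircle (2 : ℝ)) • GS α (s : AddCircle (2 : ℝ)) = _
    rw [GS_apply α hs, fourier_coe_apply, smul_eq_mul]
    congr 2
    push_cast; ring
  rw [e1, int_gs h n]
  rw [Complex.real_smul]
  push_cast
  ring

lemma summ {α : ℝ} (h : Real.sin α ≠ 0) :
    Summable fun n : ℤ => Real.sin α ^ 2 / (α + n * π) ^ 2 := by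
  have h1 := (Real.summable_one_div_int_add_rpow (α / π) 2).2 (by norm_num)
  have h2 := h1.mul_left (Real.sin α ^ 2 / π ^ 2)
  refine h2.congr fun n => ?_
  have e : |(n : ℝ) + α / π| ^ (2 : ℝ) = (n + α / π) ^ 2 := by
    rw [Real.rpow_two, sq_abs]
  rw [e]
  have pi0 := Real.pi_ne_zero
  have h3 : α + n * π = π * (n + α / π) := by field_simp; ring
  rw [h3, mul_pow]
  by_cases h4 : (n : ℝ) + α / π = 0
  · rw [h4]; simp
  · field_simp

/-- **The sampling formula.** -/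
theorem samp {α : ℝ} (h : Real.sin α ≠ 0) {s : ℝ} (hs : s ∈ Icc (-1 : ℝ) 1) :
    HasSum (fun n : ℤ => (((-1) ^ n * (Real.sin α ^ 2 / (α + n * π) ^ 2) : ℝ) : ℂ) *
      cexp ((((α + n * π) * s : ℝ) : ℂ) * I))
      ((Real.cos α : ℂ) + ((s * Real.sin α : ℝ) : ℂ) * I) := by
  have hsum : Summable (fourierCoeff (GS α)) := by
    rw [show fourierCoeff (GS α) = fun n : ℤ =>
      (((-1) ^ n * (Real.sin α ^ 2 / (α + n * π) ^ 2) : ℝ) : ℂ) from funext (coeff_GS h)]
    rw [← summable_norm_iff]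
    refine (summ h).congr fun n => ?_
    rw [norm_real, norm_mul, norm_zpow, norm_neg, norm_one, one_zpow, one_mul, Real.norm_eq_abs,
      abs_of_nonneg (by positivity)]
  have h1 := has_pointwise_sum_fourier_series_of_summable hsum (s : AddCircle (2 : ℝ))
  rw [GS_apply α hs] at h1
  have h2 := h1.mul_left (cexp (((α * s : ℝ) : ℂ) * I))
  have e1 : cexp (((α * s : ℝ) : ℂ) * I) * gs α s =
      (Real.cos α : ℂ) + ((s * Real.sin α : ℝ) : ℂ) * I := by
    unfold gs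
    rw [← mul_assoc, ← Complex.exp_add]
    have : ((α * s : ℝ) : ℂ) * I + -((α * s : ℝ) : ℂ) * I = 0 := by ring
    rw [this, Complex.exp_zero, one_mul]
  rw [e1] at h2
  refine h2.congr_fun fun n => ?_
  rw [coeff_GS h n, fourier_coe_apply, smul_eq_mul, mul_left_comm, ← Complex.exp_add]
  congr 2
  push_cast; ring

/-- the total variation is one -/
lemma hasSum_one {α : ℝ} (h : Real.sin α ≠ 0) :
    HasSum (fun n : ℤ => Real.sin α ^ 2 / (α + n * π) ^ 2) 1 := by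
  have h1 := samp h (s := 1) (by constructor <;> norm_num)
  have e0 : ((Real.cos α : ℂ) + ((1 * Real.sin α : ℝ) : ℂ) * I) = cexp ((α : ℂ) * I) := by
    rw [Complex.exp_mul_I]; push_cast; ring
  rw [e0] at h1
  have h2 := h1.mul_left (cexp (-((α : ℂ) * I)))
  rw [← Complex.exp_add, neg_add_cancel, Complex.exp_zero] at h2
  have h3 : HasSum (fun n : ℤ => ((Real.sin α ^ 2 / (α + n * π) ^ 2 : ℝ) : ℂ)) ((1 : ℝ) : ℂ) := by
    rw [ofReal_one]
    refine h2.congr_fun fun n => ?_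
    have e1 : cexp ((((α + n * π) * 1 : ℝ) : ℂ) * I) =
        (((-1) ^ n : ℝ) : ℂ) * cexp ((α : ℂ) * I) := by
      rw [mul_one, Complex.exp_mul_I, ← ofReal_cos, ← ofReal_sin, cos_add_int, sin_add_int,
        Complex.exp_mul_I, ← ofReal_cos, ← ofReal_sin]
      push_cast; ring
    rw [e1]
    have e2 : ((-1 : ℝ) ^ n) * (-1) ^ n = 1 := by
      rw [← mul_zpow]; norm_num
    have e3 : (((-1 : ℝ) ^ n : ℝ) : ℂ) * (((-1 : ℝ) ^ n : ℝ) : ℂ) = 1 := by
      rw [← ofReal_mul, e2, ofReal_one]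
    have e4 : cexp (-((α : ℂ) * I)) * cexp ((α : ℂ) * I) = 1 := by
      rw [← Complex.exp_add, neg_add_cancel, Complex.exp_zero]
    rw [ofReal_mul]
    linear_combination (-(((Real.sin α ^ 2 / (α + n * π) ^ 2 : ℝ) : ℂ)) *
      (cexp (-((α : ℂ) * I)) * cexp ((α : ℂ) * I))) * e3 -
      ((Real.sin α ^ 2 / (α + n * π) ^ 2 : ℝ) : ℂ) * e4
  exact_mod_cast h3

/-- **Finitely many nodes** -/
theorem nodes1 {α : ℝ} (h : Real.sin α ≠ 0) {δ : ℝ} (hδ : 0 < δ) :
    ∃ (S : Finset ℤ) (c x : ℤ → ℝ), ∑ k ∈ S, |c k| ≤ 1 ∧ ∀ s ∈ Icc (-1 : ℝ) 1,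
      ‖((Real.cos α : ℂ) + ((s * Real.sin α : ℝ) : ℂ) * I) -
        ∑ k ∈ S, (c k : ℂ) * cexp (((x k * s : ℝ) : ℂ) * I)‖ ≤ δ := by
  have h1 := hasSum_one h
  obtain ⟨S, hS⟩ := (h1.eventually (lt_mem_nhds (show (1 : ℝ) - δ < 1 by linarith))).exists
  have hc : ∀ n : ℤ, |(-1) ^ n * (Real.sin α ^ 2 / (α + n * π) ^ 2)| =
      Real.sin α ^ 2 / (α + n * π) ^ 2 := by
    intro n
    rw [abs_mul, abs_zpow, abs_neg, abs_one, one_zpow, one_mul, abs_of_nonneg (by positivity)]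
  refine ⟨S, fun n => (-1) ^ n * (Real.sin α ^ 2 / (α + n * π) ^ 2), fun n => α + n * π, ?_,
    fun s hs => ?_⟩
  · simp only [hc]
    exact sum_le_hasSum S (fun n _ => by positivity) h1
  · have h2 := samp h hs
    set f : ℤ → ℂ := fun n : ℤ => (((-1) ^ n * (Real.sin α ^ 2 / (α + n * π) ^ 2) : ℝ) : ℂ) *
      cexp ((((α + n * π) * s : ℝ) : ℂ) * I) with hf
    set A : ℂ := (Real.cos α : ℂ) + ((s * Real.sin α : ℝ) : ℂ) * I with hA
    have h3 : HasSum (fun n : {n // n ∉ S} => f n) (A - ∑ k ∈ S, f k) := by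
      refine (Finset.hasSum_compl_iff (f := f) S).2 ?_
      rw [sub_add_cancel]; exact h2
    obtain ⟨g, hg⟩ : ∃ g : ℤ → ℝ, g = fun n : ℤ => Real.sin α ^ 2 / (α + n * π) ^ 2 := ⟨_, rfl⟩
    have h4 : HasSum (fun n : {n // n ∉ S} => g n) (1 - ∑ k ∈ S, g k) := by
      refine (Finset.hasSum_compl_iff (f := g) S).2 ?_
      rw [sub_add_cancel, hg]; exact h1
    rw [← hg] at hS
    have h5 := tsum_of_norm_bounded (f := fun n : {n // n ∉ S} => f n) h4 (fun n => by
      simp only [hf, hg]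
      rw [norm_mul, norm_real, Real.norm_eq_abs, hc, norm_exp_ofReal_mul_I, mul_one])
    rw [h3.tsum_eq] at h5
    refine h5.trans ?_
    linarith

end

end Pool.Agent.Helper39.BW
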